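import Pool.Agent.NH34.Cmp.Coord

/-!
# Rational classes fixed by germs
-/

open CategoryTheory AlgebraicGeometry TensorProduct

universe u v w

namespace Pool.Agent.NH34.Cmp

open Module Module.End
open Pool.Agent.H914 Pool.Agent.H914.VarClass Pool.Agent.H914.VarClass.Obj
  Pool.Agent.H914.WeilCohomology Pool.Agent.Y121.AHS
open Pool.Agent.NH34.Lin Pool.Agent.NH34.Gal Pool.Agent.NH34.SS Pool.Agent.NH34.ZO
open Pool.Agent.Y133.Half Pool.Agent.Y133.Half.Sys Pool.Agent.R920.MT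
open Pool.Agent.Y121.AH (ratAlg psi gop CW)

variable {k : Type u} [Field k] {𝒱 : VarClass k} {ops : CycleOps 𝒱}
  {T : HodgeTheory ops} {W : WeilCohomology.{u, 0} ops} (C : ArtinComparison T.W W)
  {X Y Z : 𝒱.Obj} {Q0 : ClassPred T.W} {j : ℕ}

/-- The rational class `c` of degree `2 j` is fixed by a power of every germ which fixes the classes
in `Q0`. -/
def IsAbs (Q0 : ClassPred T.W) (X : 𝒱.Obj) (j : ℕ) (c : T.W.H X) : Prop :=
  c ∈ T.W.gr X (2 * j) ∧ ∀ A : Germ (Q0.sys.base ℂ), ∃ n : ℕ, 0 < n ∧ (A.A X ^ n)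
    (((1 : ℂ) ⊗ₜ[T.W.K] c : ℂ ⊗[T.W.K] T.W.H X) : (baseW T.W ℂ).H X) =
    (((1 : ℂ) ⊗ₜ[T.W.K] c : ℂ ⊗[T.W.K] T.W.H X) : (baseW T.W ℂ).H X)

include C in
/-- Rational coordinates. -/
lemma exists_coord {x : W.H X} (hx : x ∈ W.gr X (2 * j)) :
    ∃ (ι : Type) (b : ι → W.K) (s : Finset ι) (f : ι → T.W.H X),
      (∀ τ : W.K →+* ℂ, LinearIndependent ℚ fun i => τ (b i)) ∧
      (∀ i, f i ∈ T.W.gr X (2 * j)) ∧ x = ∑ i ∈ s, b i • C.γ X (f i) := by
  let _ : Algebra T.W.K W.K := C.σ.toAlgebra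
  have hW : C.Compat W.K := fun r => rfl
  obtain ⟨w, hw, hwx⟩ := exists_repr C hW hx
  let b := Basis.ofVectorSpace T.W.K W.K
  obtain ⟨f, hf⟩ : ∃ f : (Basis.ofVectorSpaceIndex T.W.K W.K) →₀ T.W.H X,
      (f.sum fun i m => b i ⊗ₜ[T.W.K] m) = w := TensorProduct.eq_repr_basis_left b w
  refine ⟨_, b, f.support, f, fun τ => Pool.Agent.Y121.AH.indep_basis (T' := toH T) b τ,
    fun i => coord_mem b (T.W.gr X (2 * j)) f (by rw [hf]; exact hw) i, ?_⟩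
  have h1 := congrArg (TensorProduct.lid W.K (W.H X)) hwx
  rw [TensorProduct.lid_tmul, one_smul] at h1
  rw [← h1, ← hf, Finsupp.sum, map_sum, map_sum]
  exact Finset.sum_congr rfl fun i _ => by rw [C.Φ_tmul, TensorProduct.lid_tmul]

/-- **Rationality.** -/
theorem mem_abs (τ : W.K →+* ℂ) {T' : Sys W} (hST : ∀ Z, (along C Q0).sys.C Z ≤ T'.C Z)
    (h : ¬ Negl (along C Q0).sys T' X) {q : ℕ} {x : W.H (pw X q)}
    (hx : x ∈ T'.C (pw X q)) (hxj : x ∈ W.gr (pw X q) (2 * j)) :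
    x ∈ spanImage W.K (C.γ (pw X q)) (IsAbs Q0 (pw X q) j) := by
  let _ : Algebra W.K ℂ := τ.toAlgebra
  obtain ⟨ι, b, s, f, hb, hf, hfx⟩ := exists_coord C hxj
  rw [hfx]
  refine Submodule.sum_mem _ fun i hi => Submodule.smul_mem _ _ (Submodule.subset_span
    ⟨f i, ⟨hf i, fun A => ?_⟩, rfl⟩)
  exact coord_fixed C hST h A hx (hb τ) hfx hi

section Hodge

/-- The germ of the Hodge decomposition. -/
noncomputable def hodgeGermV (hQ : ∀ {Z : 𝒱.Obj} {j : ℕ} {c : T.W.H Z}, Q0.P Z j c →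
    IsHodge T Z j c) : Germ (Q0.sys.base ℂ) where
  A Z := gop (toH T) Z
  w _ := 1
  w_pos _ := one_pos
  inj Z := gop_inj (T' := toH T) (X := Z)
  mul Z a b := Pool.Agent.Y121.AH.gop_mul (T := toH T) a b
  map {Y Z} f := ⟨1, one_pos, fun b => Pool.Agent.Y121.AH.gop_map (T := toH T) f b⟩
  tr Z a := Pool.Agent.Y121.AH.tr_gop (T := toH T) a
  fix Z s hs := by
    refine ⟨1, one_pos, ?_⟩
    have hs' : s ∈ (Q0.sys.C Z).baseChange ℂ := hs
    refine base_induction (P := fun s : ℂ ⊗[T.W.K] T.W.H Z => (gopC T Z ^ 1) s = s) ?_ ?_ ?_ hs'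
    · rw [map_zero]
    · intro x y hx hy
      rw [map_add, hx, hy]
    · intro l a ha
      rw [pow_one]
      refine ClassPred.sp_ind (Q := Q0)
        (q := fun a => gopC T Z (l ⊗ₜ[T.W.K] a) = l ⊗ₜ[T.W.K] a) ?_ ?_ ?_ ha
      · intro j a ha
        have h1 : (l ⊗ₜ[T.W.K] a : ℂ ⊗[T.W.K] T.W.H Z) = l • ((1 : ℂ) ⊗ₜ[T.W.K] a) := by
          rw [TensorProduct.smul_tmul', smul_eq_mul, mul_one]
        have h2 : gopC T Z ((1 : ℂ) ⊗ₜ[T.W.K] a) = (1 : ℂ) ⊗ₜ[T.W.K] a :=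
          Pool.Agent.Y121.AH.gop_hodge (T := toH T) (hQ ha)
        rw [h1, map_smul, h2]
      · rw [TensorProduct.tmul_zero, map_zero]
      · intro x y hx hy
        rw [TensorProduct.tmul_add, map_add, hx, hy]

/-- The rational classes which are fixed by all germs are Hodge classes. -/
theorem IsAbs.hodge (hQ : ∀ {Z : 𝒱.Obj} {j : ℕ} {c : T.W.H Z}, Q0.P Z j c →
    IsHodge T Z j c) {c : T.W.H X} (hc : IsAbs Q0 X j c) : IsHodge T X j c := by
  obtain ⟨n, hn, h1⟩ := hc.2 (hodgeGermV hQ)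
  refine ⟨hc.1, pq_of_fix_pow (T' := toH T) hn ?_ h1⟩
  have h6 := T.span X (2 * j)
  have h7 : (((1 : ℂ) ⊗ₜ[T.W.K] c : ℂ ⊗[T.W.K] T.W.H X) : HL T.W ℂ X) ∈ grL T.W ℂ X (2 * j) :=
    Submodule.tmul_mem_baseChange_of_mem _ hc.1
  rw [h6] at h7
  exact h7

end Hodge

section Tate

variable {Γ : Type w} [Group Γ] {G : ActionData W Γ}

/-- From a fixed vector to the action of the Galois group. -/
lemma act_of_opG (hG : IsGaloisTheory G) {L : Type} [Field L] [Algebra W.K L] {g : Γ} {c : L}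
    (hc : c ^ 2 = algebraMap W.K L (G.χ g : W.K)) {m n : ℕ} (hm : 0 < m) (hmD : g ^ m ∈ G.D X)
    (hn : 0 < n) {x : W.H X} (hxj : x ∈ W.gr X (2 * j))
    (h2 : (opG G L g c m X ^ n) ((1 : L) ⊗ₜ[W.K] x) = (1 : L) ⊗ₜ[W.K] x) :
    ∃ n : ℕ, 0 < n ∧ ∃ h : g ^ n ∈ G.D X, G.act X ⟨g ^ n, h⟩ x = (G.χ g : W.K) ^ (n * j) • x := by
  have hwn : g ^ (m * n) ∈ G.D X := by
    rw [pow_mul]; exact (G.D _).pow_mem hmD n
  refine ⟨m * n, Nat.mul_pos hm hn, hwn, ?_⟩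
  rw [opG_pow hG hmD, opG_tmul hG hwn 1 hxj] at h2
  have hc0 : c ≠ 0 := by
    rintro rfl
    rw [zero_pow two_ne_zero] at hc
    exact (G.χ g).ne_zero ((algebraMap W.K L).injective (hc.symm.trans (map_zero _).symm))
  have h3 : (1 : L) ⊗ₜ[W.K] (G.act X ⟨g ^ (m * n), hwn⟩ x -
      (G.χ g : W.K) ^ (m * n * j) • x) = 0 := by
    have h4 := congrArg (fun y => c ^ (m * n * (2 * j)) • y) h2
    simp only [smul_smul] at h4
    rw [← mul_pow, mul_inv_cancel₀ hc0, one_pow, one_smul] at h4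
    rw [TensorProduct.tmul_sub, h4, TensorProduct.tmul_smul,
      ← algebraMap_smul L ((G.χ g : W.K) ^ (m * n * j)), map_pow, ← hc, ← pow_mul,
      show m * n * (2 * j) = 2 * (m * n * j) by ring, sub_self]
  exact sub_eq_zero.1 (tmul_injective _ h3)

/-- The rational classes which are fixed by all germs are Tate classes. -/
theorem IsAbs.tate [TopologicalSpace Γ] [IsTopologicalGroup Γ] [CompactSpace Γ]
    [TotallyDisconnectedSpace Γ] {ℓ : ℕ} [Fact ℓ.Prime] {e : W.K ≃+* ℚ_[ℓ]}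
    (hG : IsGaloisTheory G) (hc : IsContinuousTheory e G)
    (hQ : ∀ {Z : 𝒱.Obj} {j : ℕ} {c : T.W.H Z}, Q0.P Z j c → IsTate G Z j (C.γ Z c))
    {c : T.W.H X} (hcA : IsAbs Q0 X j c) : IsTate G X j (C.γ X c) := by
  obtain ⟨τ⟩ := exists_emb ℓ
  let _ : Algebra W.K ℂ := (τ.comp e.toRingHom).toAlgebra
  have hS : ∀ Z, (along C Q0).sys.C Z ≤ tateSpace G Z := by
    intro Z x hx
    refine ClassPred.sp_ind (Q := along C Q0) (q := fun x => x ∈ tateSpace G Z) ?_ ?_ ?_ hx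
    · intro j x hx
      refine ladic_ind C Q0 (p := fun x => x ∈ tateSpace G Z) ?_ ?_ hx
      · intro r a ha
        exact Submodule.smul_mem _ _ (Submodule.subset_span ⟨j, hQ ha⟩)
      · intro x y hx hy
        exact Submodule.add_mem _ hx hy
    · exact Submodule.zero_mem _
    · intro x y hx hy
      exact Submodule.add_mem _ hx hy
  refine ⟨C.gr' hcA.1, almostTwisted_of_torsion hc.1 (hc.2 _) fun g => ?_⟩
  obtain ⟨z, hz⟩ := IsAlgClosed.exists_pow_nat_eq (algebraMap W.K ℂ (G.χ g : W.K)) two_pos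
  obtain ⟨n, hn, h1⟩ := hcA.2 (germV C (compat C) (galGerm hG hS hz))
  have hw := (exists_exp hG g X).choose_spec
  refine act_of_opG hG hz hw.1 hw.2 hn (C.gr' hcA.1) ?_
  have h2 : C.Φ (compat C) X ((opV C (compat C) (opG G ℂ g z (exists_exp hG g X).choose X) ^ n)
      ((1 : ℂ) ⊗ₜ[T.W.K] c)) = C.Φ (compat C) X ((1 : ℂ) ⊗ₜ[T.W.K] c) := congrArg _ h1
  rw [Φ_opV_pow, C.Φ_tmul] at h2
  exact h2

end Tate

end Pool.Agent.NH34.Cmp
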