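import Pool.Agent.NH34.Cmp.Abs

/-!
# Classes which are Hodge classes and Tate classes for all primes
-/

open CategoryTheory AlgebraicGeometry TensorProduct

universe u v w

namespace Pool.Agent.NH34.Cmp

open Module Module.End
open Pool.Agent.H914 Pool.Agent.H914.VarClass Pool.Agent.H914.VarClass.Obj
  Pool.Agent.H914.WeilCohomology Pool.Agent.Y121.AHS
open Pool.Agent.NH34.Lin Pool.Agent.NH34.Gal Pool.Agent.NH34.SS Pool.Agent.NH34.ZO
open Pool.Agent.Y133.Half Pool.Agent.Y133.Half.Sys Pool.Agent.R920.MT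

variable {k : Type u} [Field k] {𝒱 : VarClass k} {ops : CycleOps 𝒱}
  {T : HodgeTheory ops} {ι : Type v} {W : ι → WeilCohomology.{u, 0} ops}
  (C : ∀ i, ArtinComparison T.W (W i)) {X Y Z : 𝒱.Obj} {j : ℕ}
  {Γ : Type w} [Group Γ] (G : ∀ i, ActionData (W i) Γ)

/-- The Hodge classes which are Tate classes for all primes. -/
def HodgeTates (X : 𝒱.Obj) (j : ℕ) (c : T.W.H X) : Prop :=
  IsHodge T X j c ∧ ∀ i, IsTate (G i) X j ((C i).γ X c)

variable {G} (hG : ∀ i, IsGaloisTheory (G i))
include hG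

lemma isSystem_all : IsSystem (W := T.W) (HodgeTates C G) where
  lin X j := by
    refine ⟨Pool.Agent.Y121.AH.hodgeSub (toH T) X j ⊓ ⨅ i, tateSub (C i) (G i) X j, fun c => ?_⟩
    constructor
    · intro h
      exact ⟨h.1, fun i => (Submodule.mem_iInf _).1 h.2 i⟩
    · intro h
      exact ⟨h.1, (Submodule.mem_iInf _).2 h.2⟩
  cl X j z hz := ⟨(isSystem_hodge (toH T)).cl X j z hz,
    fun i => (isSystem_tate (C i) (hG i)).cl X j z hz⟩
  mul X i j a b ha hb := ⟨(isSystem_hodge (toH T)).mul X i j a b ha.1 hb.1,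
    fun l => (isSystem_tate (C l) (hG l)).mul X i j a b (ha.2 l) (hb.2 l)⟩
  map X Y f j a ha := ⟨(isSystem_hodge (toH T)).map X Y f j a ha.1,
    fun i => (isSystem_tate (C i) (hG i)).map X Y f j a (ha.2 i)⟩
  push X Y f j l a hl ha := ⟨(isSystem_hodge (toH T)).push X Y f j l a hl ha.1,
    fun i => (isSystem_tate (C i) (hG i)).push X Y f j l a hl (ha.2 i)⟩
  lift X D j hD hL hj x hx h := ⟨(isSystem_hodge (toH T)).lift X D j hD hL hj x hx h.1,
    fun i => (isSystem_tate (C i) (hG i)).lift X D j hD hL hj x hx (h.2 i)⟩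

/-- The classes which are Hodge classes and Tate classes for all primes. -/
def allPred : ClassPred T.W where
  P := HodgeTates C G
  gr h := h.1.1
  zero := ((isSystem_all C hG).lin _ _).zero
  add ha hb := ((isSystem_all C hG).lin _ _).add ha hb
  smul r _ ha := ((isSystem_all C hG).lin _ _).smul r ha
  cl hz := (isSystem_all C hG).cl _ _ _ hz
  mul ha hb := (isSystem_all C hG).mul _ _ _ _ _ ha hb
  map f _ _ h := (isSystem_all C hG).map _ _ f _ _ h
  push f _ _ hl _ h := (isSystem_all C hG).push _ _ f _ _ _ hl h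

lemma lifts_all : Pool.Agent.Y121.AH.Lifts (toH T) (allPred C hG) := by
  intro X D hD j hj v hv
  have h0 : v ∈ T.W.gr X (2 * X.dim - 2 * j) := by
    have := (allPred C hG).gr hv
    rwa [show 2 * (X.dim - j) = 2 * X.dim - 2 * j by omega] at this
  obtain ⟨x, hx, hxv⟩ := Pool.Agent.Y121.AH.hl_surj hD.2.1 hj h0
  refine ⟨x, ?_, hxv⟩
  refine (isSystem_all C hG).lift X D j hD.1 hD.2.1 hj x hx ?_
  have h1 : powMul (T.W.cl X D) (X.dim - 2 * j) x = v := hxv
  rw [h1]
  exact hv

lemma all_nondeg (X : 𝒱.Obj) : (allPred C hG).sys.Nondeg X :=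
  fun _ hx h => Pool.Agent.Y121.AH.q_nondeg_sys (T := toH T) (Q := allPred C hG)
    (fun h => h.1) (lifts_all C hG) hx h

omit hG in
/-- The number of the linearly independent classes which are Hodge classes and Tate classes for all
primes. -/
noncomputable def allDim (C : ∀ i, ArtinComparison T.W (W i)) (G : ∀ i, ActionData (W i) Γ)
    (X : 𝒱.Obj) : ℕ := dimBy T.W (HodgeTates C G) X

lemma a_all (Z : 𝒱.Obj) : (allPred C hG).sys.a Z = allDim C G Z := by
  have h5 : (allPred C hG).sys.Num Z = ⊥ := by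
    rw [eq_bot_iff]
    rintro c ⟨hc1, hc2⟩
    rw [Submodule.mem_bot]
    exact all_nondeg C hG Z c hc1 hc2
  have h6 := (allPred C hG).sys.a_add_num Z
  rw [h5, finrank_bot, add_zero] at h6
  exact h6

lemma allDim_le (i : ι) (Z : 𝒱.Obj) : allDim C G Z ≤ hodgeTateDim (C i) (G i) Z := by
  have h : (allPred C hG).sys.C Z ≤ (hodgeTatePred (C i) (hG i)).sys.C Z :=
    Submodule.span_mono fun _ ⟨j, hj⟩ => ⟨j, hj.1, hj.2 i⟩
  exact Submodule.finrank_mono h

lemma motDim_le_all (Z : 𝒱.Obj) : motDim T Z ≤ allDim C G Z := by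
  have h : (motPred T.W).sys.C Z ≤ (allPred C hG).sys.C Z :=
    Submodule.span_mono fun _ ⟨j, hj⟩ =>
      ⟨j, IsMotivated.hodge (T := toH T) hj, fun i => mot_tate (C i) (hG i) hj⟩
  exact Submodule.finrank_mono h

section Top

variable [TopologicalSpace Γ] [IsTopologicalGroup Γ] [CompactSpace Γ]
    [TotallyDisconnectedSpace Γ] {ℓ : ι → ℕ} [∀ i, Fact (ℓ i).Prime]
    {e : ∀ i, (W i).K ≃+* ℚ_[ℓ i]} (hc : ∀ i, IsContinuousTheory (e i) (G i))
include hc

/-- If the classes which are Hodge classes and Tate classes for all primes are not negligible among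
the Hodge classes, then all Hodge classes are Tate classes for all primes. -/
theorem hodge_all
    (h : ¬ Negligible (fun n => allDim C G (pw X n)) (fun n => hodgeDim T (pw X n))) (n j : ℕ)
    (c : T.W.H (pw X n)) (hcj : IsHodge T (pw X n) j c) : HodgeTates C G (pw X n) j c := by
  refine ⟨hcj, fun i => ?_⟩
  refine hodgeIsTate (C := C i) (hG i) (hc i) (fun h' => h ?_) n j c hcj
  exact Negligible.mono h' fun n => (allDim_le C hG i _).trans (hodgeTateDim_le (hG i) _)

/-- If the classes which are Hodge classes and Tate classes for all primes are not negligible among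
the Tate classes for one prime, then all Tate classes for this prime are linear combinations of
such classes. -/
theorem tate_all (i : ι)
    (h : ¬ Negligible (fun n => allDim C G (pw X n)) (fun n => tateDim (G i) (pw X n))) (n : ℕ) :
    (∀ j c, IsTate (G i) (pw X n) j c → c ∈ spanImage (W i).K ((C i).γ (pw X n))
      (HodgeTates C G (pw X n) j)) ∧ PerfectPairing (G i) (pw X n) := by
  constructor
  · intro j c hcj
    obtain ⟨τ⟩ := exists_emb (ℓ i)
    have hST : ∀ Z, (along (C i) (allPred C hG)).sys.C Z ≤ (tatePred (hG i)).sys.C Z := by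
      intro Z
      refine Submodule.span_mono fun c ⟨j, hj⟩ => ⟨j, ?_⟩
      refine ladic_ind (C i) (allPred C hG) (p := fun c => IsTate (G i) Z j c) ?_ ?_ hj
      · intro r a ha
        exact IsTate.smul r (ha.2 i)
      · intro x y hx hy
        exact IsTate.add hx hy
    have h1 : ¬ Negl (along (C i) (allPred C hG)).sys (tatePred (hG i)).sys X := fun h' => h
      ((negl_iff (fun n => (a_along (C i) _ _).trans (a_all C hG _)) (fun n => rfl)).1 h')
    have h2 := mem_abs (C i) (τ.comp (e i).toRingHom) hST h1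
      (ClassPred.sp_of (Q := tatePred (hG i)) (j := j) hcj) hcj.1
    refine Submodule.span_mono ?_ h2
    rintro _ ⟨a, ha, rfl⟩
    have h3 : ∀ {Z : 𝒱.Obj} {j : ℕ} {c : T.W.H Z}, (allPred C hG).P Z j c →
        IsHodge T Z j c := fun h => h.1
    have h4 : ∀ (l : ι) {Z : 𝒱.Obj} {j : ℕ} {c : T.W.H Z}, (allPred C hG).P Z j c →
        IsTate (G l) Z j ((C l).γ Z c) := fun l _ _ _ h => h.2 l
    exact ⟨a, ⟨ha.hodge h3, fun l => ha.tate (C l) (hG l) (hc l) (h4 l)⟩, rfl⟩
  · refine (tateIsHodge (C := C i) (e i) (hG i) (fun h' => h ?_) n).2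
    exact Negligible.mono h' fun n => (allDim_le C hG i _).trans (hodgeTateDim_le (hG i) _)

end Top

/-- The index of the motivated classes. -/
theorem all_index (X : 𝒱.Obj) [Nontrivial (T.W.H X)] :
    ∃ N : ℕ∞, 1 ≤ N ∧ HasIndex (fun n => allDim C G (pw X n)) (fun n => motDim T (pw X n)) N ∧
      (N = 1 ↔ ∀ n j c, HodgeTates C G (pw X n) j c → IsMotivated T.W (pw X n) j c) := by
  obtain ⟨N, -, h1, -, h3, -, -, h6, -, -, -, -, -⟩ :=
    (motPred T.W).tower (allPred C hG)
      (fun h => ⟨IsMotivated.hodge (T := toH T) h, fun i => mot_tate (C i) (hG i) h⟩) X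
      (fun n => mot_nondeg (toH T) (pw X n))
  exact ⟨N, h1, h3, h6⟩

end Pool.Agent.NH34.Cmp
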