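import Pool.Agent.NH34.Cmp.Law

/-!
# The indices of the motivated classes in the Hodge classes and in the Tate classes
-/

open CategoryTheory AlgebraicGeometry TensorProduct Filter Topology

open scoped ENNReal

universe u w

namespace Pool.Agent.NH34.Cmp

open Module
open Pool.Agent.H914 Pool.Agent.H914.VarClass Pool.Agent.H914.VarClass.Obj
  Pool.Agent.H914.WeilCohomology Pool.Agent.Y121.AHS
open Pool.Agent.NH34.Lin Pool.Agent.NH34.Gal Pool.Agent.NH34.SS Pool.Agent.NH34.ZO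
open Pool.Agent.Y133.Half Pool.Agent.R920.MT

section Seq

lemma not_negligible {t s : ℕ → ℕ} {N : ℕ∞} (h : HasIndex t s N) (hN : N ≠ ⊤)
    (hs : ∀ n, 0 < s n) : ¬ Negligible s t := by
  intro hn
  obtain ⟨m, rfl⟩ := ENat.ne_top_iff_exists.1 hN
  obtain ⟨n₀, h0⟩ := hn (m + 1)
  have h1 : ∀ᶠ n in atTop, ((m + 1 : ℕ) : ℝ≥0∞) ≤ (t n : ℝ≥0∞) / s n := by
    refine eventually_atTop.2 ⟨n₀, fun n hn => ?_⟩
    rw [ENNReal.le_div_iff_mul_le (Or.inl (by exact_mod_cast (hs n).ne'))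
      (Or.inl (ENNReal.natCast_ne_top _))]
    exact_mod_cast h0 n hn
  have h2 := ge_of_tendsto h h1
  have h3 : ((m + 1 : ℕ) : ℝ≥0∞) ≤ ((m : ℕ) : ℝ≥0∞) := by simpa using h2
  have h4 : m + 1 ≤ m := by exact_mod_cast h3
  omega

lemma Negligible.mono {r r' t : ℕ → ℕ} (h : Negligible r t) (hr : ∀ n, r' n ≤ r n) :
    Negligible r' t := by
  intro N
  obtain ⟨n₀, h0⟩ := h N
  exact ⟨n₀, fun n hn => (Nat.mul_le_mul_left N (hr n)).trans (h0 n hn)⟩

lemma index_mono {t t' s : ℕ → ℕ} {N N' : ℕ∞} (h : HasIndex t s N) (h' : HasIndex t' s N')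
    (ht : ∀ n, t n ≤ t' n) : N ≤ N' := by
  have h1 : (N : ℝ≥0∞) ≤ (N' : ℝ≥0∞) := by
    refine le_of_tendsto_of_tendsto' h h' fun n => ?_
    exact ENNReal.div_le_div_right (by exact_mod_cast ht n) _
  exact_mod_cast h1

end Seq

variable {k : Type u} [Field k] {𝒱 : VarClass k} {ops : CycleOps 𝒱}
  {T : HodgeTheory ops} {W : WeilCohomology.{u, 0} ops} {C : ArtinComparison T.W W}
  {X Y Z : 𝒱.Obj} {j : ℕ} {Γ : Type w} [Group Γ] {G : ActionData W Γ}

lemma nontrivial_H (C : ArtinComparison T.W W) [Nontrivial (T.W.H X)] : Nontrivial (W.H X) := by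
  rw [← not_subsingleton_iff_nontrivial]
  intro hs
  have h1 : (1 : T.W.H X) = 0 := by
    apply T.W.nondeg
    intro b
    have h2 : C.σ (T.W.tr X (1 * b)) = 0 := by
      rw [← C.tr', Subsingleton.elim (C.γ X (1 * b)) 0, map_zero]
    exact (map_eq_zero C.σ).1 h2
  exact one_ne_zero h1

lemma motDim_pos [Nontrivial (T.W.H X)] (n : ℕ) : 0 < motDim T (pw X n) :=
  (motPred T.W).sys.finrank_pos_pw n

lemma hodgeDim_le_tateDim (hG : IsGaloisTheory G) (h : HodgeIsTate C G Z) :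
    hodgeDim T Z ≤ tateDim G Z := by
  rw [← finrank_hodge (C := C) Z]
  refine Submodule.finrank_mono ?_
  intro x hx
  refine ClassPred.sp_ind (Q := hodgePred C) (q := fun x => x ∈ (tatePred hG).sys.C Z)
    ?_ ?_ ?_ hx
  · intro j x hx
    refine hodgePart_ind C (p := fun x => x ∈ (tatePred hG).sys.C Z) ?_ ?_ hx
    · intro r a ha
      exact Submodule.smul_mem _ _ (ClassPred.sp_of (Q := tatePred hG) (j := j) (h j a ha))
    · intro x y hx hy
      exact Submodule.add_mem _ hx hy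
  · exact Submodule.zero_mem _
  · intro x y hx hy
    exact Submodule.add_mem _ hx hy

lemma tateDim_le_hodgeDim (h : TateIsHodge C G Z) : tateDim G Z ≤ hodgeDim T Z := by
  rw [← finrank_hodge (C := C) Z]
  exact Submodule.finrank_mono (Submodule.span_mono fun _ ⟨j, hj⟩ => ⟨j, h j _ hj⟩)

/-- **The indices of the motivated classes.** -/
theorem indices [TopologicalSpace Γ] [IsTopologicalGroup Γ] [CompactSpace Γ]
    [TotallyDisconnectedSpace Γ] {ℓ : ℕ} [Fact ℓ.Prime] {e : W.K ≃+* ℚ_[ℓ]}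
    (hG : IsGaloisTheory G) (hc : IsContinuousTheory e G) (C : ArtinComparison T.W W)
    (X : 𝒱.Obj) [Nontrivial (T.W.H X)] :
    ∃ N M : ℕ∞, 1 ≤ N ∧ 1 ≤ M ∧
      HasIndex (fun n => hodgeDim T (pw X n)) (fun n => motDim T (pw X n)) N ∧
      HasIndex (fun n => tateDim G (pw X n)) (fun n => motDim T (pw X n)) M ∧
      (N = 1 ↔ ∀ n, HodgeIsMotivated T (pw X n)) ∧
      (M = 1 ↔ ∀ n, TateIsMotivated C G (pw X n)) ∧
      (N ≠ ⊤ → N ≤ M ∧ ∀ n, HodgeIsTate C G (pw X n)) ∧
      (M ≠ ⊤ → M ≤ N ∧ ∀ n, TateIsHodge C G (pw X n) ∧ PerfectPairing G (pw X n)) := by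
  obtain ⟨N, -, h1, -, h3, -, -, h6, -, -, -, -, -⟩ :=
    (motPred T.W).tower (Pool.Agent.Y121.AH.hodgePred (toH T))
      (fun h => IsMotivated.hodge (T := toH T) h) X (fun n => mot_nondeg (toH T) (pw X n))
  have : Nontrivial (W.H X) := nontrivial_H C
  have hle : ∀ {Z : 𝒱.Obj} {j : ℕ} {c : W.H Z}, (along C (motPred T.W)).P Z j c →
      (tatePred hG).P Z j c := by
    intro Z j c hc
    refine ladic_ind C (motPred T.W) (p := fun c => IsTate G Z j c) ?_ ?_ hc
    · intro r a ha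
      exact IsTate.smul r (mot_tate C hG ha)
    · intro x y hx hy
      exact IsTate.add hx hy
  obtain ⟨M, -, k1, -, k3, -, -, k6, -, -, -, -, -⟩ :=
    (along C (motPred T.W)).tower (tatePred hG) hle X
      (fun n => nondeg_along C (motPred T.W) (mot_nondeg (toH T) (pw X n)))
  have k3' : HasIndex (fun n => tateDim G (pw X n)) (fun n => motDim T (pw X n)) M := by
    have e1 : (fun n => dimBy W (along C (motPred T.W)).P (pw X n)) =
        fun n => motDim T (pw X n) := funext fun n => finrank_along C (motPred T.W) (pw X n)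
    rw [e1] at k3
    exact k3
  have h3' : HasIndex (fun n => hodgeDim T (pw X n)) (fun n => motDim T (pw X n)) N := h3
  have hb : ∀ n, motDim T (pw X n) ≤ commonRank C G (pw X n) := fun n =>
    (motDim_le hG _).trans (hodgeTateDim_le hG _)
  have hH : N ≠ ⊤ → ∀ n, HodgeIsTate C G (pw X n) := fun hN => hodgeIsTate hG hc fun hcon =>
    not_negligible h3' hN (fun n => motDim_pos n) (Negligible.mono hcon hb)
  have hT : M ≠ ⊤ → ∀ n, TateIsHodge C G (pw X n) ∧ PerfectPairing G (pw X n) := fun hM =>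
    tateIsHodge e hG fun hcon =>
      not_negligible k3' hM (fun n => motDim_pos n) (Negligible.mono hcon hb)
  refine ⟨N, M, h1, k1, h3', k3', h6, k6, fun hN => ⟨?_, hH hN⟩, fun hM => ⟨?_, hT hM⟩⟩
  · exact index_mono h3' k3' fun n => hodgeDim_le_tateDim hG (hH hN n)
  · exact index_mono k3' h3' fun n => tateDim_le_hodgeDim (hT hM n).1

end Pool.Agent.NH34.Cmp
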