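import Pool.Agent.NH34.Cmp.MDefs
import Pool.Agent.NH34.Mot.Conv
import Pool.Agent.NH34.Cmp.Ind

/-!
# The final statements
-/

open CategoryTheory AlgebraicGeometry TensorProduct

universe u w

namespace Pool.Agent.NH34.Law

open Module
open Pool.Agent.H914 Pool.Agent.H914.VarClass Pool.Agent.H914.VarClass.Obj
  Pool.Agent.H914.WeilCohomology
open Pool.Agent.NH34.Lin Pool.Agent.NH34.Gal Pool.Agent.NH34.Hdg Pool.Agent.NH34.Cmp
  Pool.Agent.NH34.Mot
open Pool.Agent.Y133.Half (pw HasIndex)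

variable {k : Type u} [Field k] {𝒱 : VarClass k} {ops : CycleOps 𝒱}
  {T : HodgeTheory ops} {W : WeilCohomology.{u, 0} ops} {Γ : Type w} [Group Γ]

/-- The comparison isomorphism, for the converted Hodge theory. -/
def cc (C : ArtinComparison T.W W) : ArtinComparison (conv T).W W := C

lemma hodgeNum_eq (X : 𝒱.Obj) : hodgeNum T X = Pool.Agent.Y121.AHS.hodgeDim (conv T) X := rfl

lemma tateNum_eq (G : ActionData W Γ) (X : 𝒱.Obj) :
    tateNum G X = Pool.Agent.NH34.SS.tateDim G X := rfl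

lemma hodgeTateNum_eq (C : ArtinComparison T.W W) (G : ActionData W Γ) (X : 𝒱.Obj) :
    hodgeTateNum C G X = hodgeTateDim (cc C) G X := rfl

lemma commonRank_eq' (C : ArtinComparison T.W W) (G : ActionData W Γ) (X : 𝒱.Obj) :
    commonRank C G X = Pool.Agent.NH34.Cmp.commonRank (cc C) G X := rfl

lemma motNum_eq (X : 𝒱.Obj) : motNum T X = motDim (conv T) X := by
  have h : (fun j (c : T.W.H X) => IsMotivated T.W X j c) =
      fun j c => Pool.Agent.R920.MT.IsMotivated T.W X j c := by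
    funext j c
    exact propext isMotivated_iff
  change numOf T.W.K (fun j (c : T.W.H X) => IsMotivated T.W X j c) = _
  rw [h]
  rfl

lemma hodgeIsTate_iff {C : ArtinComparison T.W W} {G : ActionData W Γ} {X : 𝒱.Obj} :
    HodgeIsTate C G X ↔ Pool.Agent.NH34.Cmp.HodgeIsTate (cc C) G X := Iff.rfl

lemma tateIsHodge_iff {C : ArtinComparison T.W W} {G : ActionData W Γ} {X : 𝒱.Obj} :
    TateIsHodge C G X ↔ Pool.Agent.NH34.Cmp.TateIsHodge (cc C) G X := Iff.rfl

lemma tateIsPerfect_iff {G : ActionData W Γ} {X : 𝒱.Obj} :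
    TateIsPerfect G X ↔ Pool.Agent.NH34.SS.PerfectPairing G X := Iff.rfl

lemma negligible_iff {r t : ℕ → ℕ} : Negligible r t ↔ Pool.Agent.NH34.SS.Negligible r t := Iff.rfl

/-- **The zero-one law for the Mumford-Tate conjecture.** -/
theorem zero_one [TopologicalSpace Γ] [IsTopologicalGroup Γ] [CompactSpace Γ]
    [TotallyDisconnectedSpace Γ] {ℓ : ℕ} [Fact ℓ.Prime] {e : W.K ≃+* ℚ_[ℓ]}
    {G : ActionData W Γ} (hG : IsGaloisTheory G) (hc : IsContinuousTheory e G)
    (C : ArtinComparison T.W W) (X : 𝒱.Obj) :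
    (∀ n, hodgeTateNum C G (pw X n) ≤ commonRank C G (pw X n)) ∧
    ((∀ n, HodgeIsTate C G (pw X n)) ∨
      Negligible (fun n => commonRank C G (pw X n)) (fun n => hodgeNum T (pw X n))) ∧
    ((∀ n, TateIsHodge C G (pw X n) ∧ TateIsPerfect G (pw X n)) ∨
      Negligible (fun n => commonRank C G (pw X n)) (fun n => tateNum G (pw X n))) := by
  obtain ⟨h1, h2, h3⟩ := Pool.Agent.NH34.Cmp.zero_one hG hc (cc C) X
  exact ⟨fun n => (h1 n).2, h2, h3⟩

/-- Motivated classes are Hodge classes and Tate classes. -/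
theorem motNum_le {G : ActionData W Γ} (hG : IsGaloisTheory G) (C : ArtinComparison T.W W)
    (X : 𝒱.Obj) : motNum T X ≤ hodgeTateNum C G X := by
  rw [motNum_eq]
  exact motDim_le (C := cc C) hG X

end Pool.Agent.NH34.Law
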