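import Pool.Agent.NH34.Cmp.FDefs
import Pool.Agent.NH34.Cmp.Fin
import Pool.Agent.NH34.Cmp.Fam

/-!
# The final statements on the independence of the prime
-/

open CategoryTheory AlgebraicGeometry TensorProduct Filter Topology

open scoped ENNReal

universe u v w

namespace Pool.Agent.NH34.Cmp

open Module
open Pool.Agent.H914 Pool.Agent.H914.VarClass Pool.Agent.H914.VarClass.Obj
  Pool.Agent.H914.WeilCohomology Pool.Agent.Y121.AHS
open Pool.Agent.NH34.Lin Pool.Agent.NH34.Gal Pool.Agent.NH34.SS Pool.Agent.NH34.ZO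
open Pool.Agent.Y133.Half Pool.Agent.Y133.Half.Sys Pool.Agent.R920.MT

lemma hasIndex_top {s t : ℕ → ℕ} (h : SS.Negligible s t) (hs : ∀ n, 0 < s n) : HasIndex t s ⊤ := by
  unfold HasIndex
  rw [ENat.toENNReal_top, ENNReal.tendsto_nhds_top_iff_nat]
  intro m
  obtain ⟨n₀, h0⟩ := h (m + 1)
  refine eventually_atTop.2 ⟨n₀, fun n hn => ?_⟩
  have h1 : ((m + 1 : ℕ) : ℝ≥0∞) ≤ (t n : ℝ≥0∞) / s n := by
    rw [ENNReal.le_div_iff_mul_le (Or.inl (by exact_mod_cast (hs n).ne'))
      (Or.inl (ENNReal.natCast_ne_top _))]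
    exact_mod_cast h0 n hn
  refine lt_of_lt_of_le ?_ h1
  exact_mod_cast Nat.lt_succ_self m

variable {k : Type u} [Field k] {𝒱 : VarClass k} {ops : CycleOps 𝒱}
  {T : HodgeTheory ops} {ι : Type v} {W : ι → WeilCohomology.{u, 0} ops}
  (C : ∀ i, ArtinComparison T.W (W i)) {X Y Z : 𝒱.Obj} {j : ℕ}
  {Γ : Type w} [Group Γ] {G : ∀ i, ActionData (W i) Γ} (hG : ∀ i, IsGaloisTheory (G i))
include hG

lemma hodgeDim_eq (h : ∀ j c, IsHodge T Z j c → HodgeTates C G Z j c) :
    hodgeDim T Z = allDim C G Z := by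
  have h1 : Submodule.span T.W.K {c | ∃ j, IsHodge T Z j c} =
      Submodule.span T.W.K {c | ∃ j, HodgeTates C G Z j c} := by
    congr 1
    ext c
    exact ⟨fun ⟨j, hj⟩ => ⟨j, h j c hj⟩, fun ⟨j, hj⟩ => ⟨j, hj.1⟩⟩
  exact congrArg (fun U : Submodule T.W.K (T.W.H Z) => finrank T.W.K U) h1

lemma tateDim_eq {i : ι} (h : ∀ j c, IsTate (G i) Z j c → c ∈ spanImage (W i).K ((C i).γ Z)
    (HodgeTates C G Z j)) : tateDim (G i) Z = allDim C G Z := by
  have h2 : finrank (W i).K ((along (C i) (allPred C hG)).sys.C Z) = allDim C G Z :=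
    finrank_along (C i) (allPred C hG) Z
  rw [← h2]
  have h1 : (tatePred (hG i)).sys.C Z = (along (C i) (allPred C hG)).sys.C Z := by
    apply le_antisymm
    · exact Submodule.span_mono fun c ⟨j, hj⟩ => ⟨j, h j c hj⟩
    · refine Submodule.span_mono fun c ⟨j, hj⟩ => ⟨j, ?_⟩
      refine ladic_ind (C i) (allPred C hG) (p := fun c => IsTate (G i) Z j c) ?_ ?_ hj
      · intro r a ha
        exact IsTate.smul r (ha.2 i)
      · intro x y hx hy
        exact IsTate.add hx hy
  exact congrArg (fun U : Submodule (W i).K ((W i).H Z) => finrank (W i).K U) h1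

/-- **Independence of the prime.** -/
theorem independence [TopologicalSpace Γ] [IsTopologicalGroup Γ] [CompactSpace Γ]
    [TotallyDisconnectedSpace Γ] {ℓ : ι → ℕ} [∀ i, Fact (ℓ i).Prime]
    {e : ∀ i, (W i).K ≃+* ℚ_[ℓ i]} (hc : ∀ i, IsContinuousTheory (e i) (G i))
    (X : 𝒱.Obj) [Nontrivial (T.W.H X)] :
    ∃ N : ℕ∞, 1 ≤ N ∧ HasIndex (fun n => allDim C G (pw X n)) (fun n => motDim T (pw X n)) N ∧
      (N = 1 ↔ ∀ n j c, HodgeTates C G (pw X n) j c → IsMotivated T.W (pw X n) j c) ∧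
      ((HasIndex (fun n => hodgeDim T (pw X n)) (fun n => motDim T (pw X n)) N ∧
          ∀ n j c, IsHodge T (pw X n) j c → HodgeTates C G (pw X n) j c) ∨
        (HasIndex (fun n => hodgeDim T (pw X n)) (fun n => motDim T (pw X n)) ⊤ ∧
          SS.Negligible (fun n => allDim C G (pw X n)) (fun n => hodgeDim T (pw X n)))) ∧
      ∀ i, (HasIndex (fun n => tateDim (G i) (pw X n)) (fun n => motDim T (pw X n)) N ∧
          ∀ n, (∀ j c, IsTate (G i) (pw X n) j c → c ∈ spanImage (W i).K ((C i).γ (pw X n))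
            (HodgeTates C G (pw X n) j)) ∧ PerfectPairing (G i) (pw X n)) ∨
        (HasIndex (fun n => tateDim (G i) (pw X n)) (fun n => motDim T (pw X n)) ⊤ ∧
          SS.Negligible (fun n => allDim C G (pw X n)) (fun n => tateDim (G i) (pw X n))) := by
  obtain ⟨N, h1, h2, h3⟩ := all_index C hG X
  refine ⟨N, h1, h2, h3, ?_, fun i => ?_⟩
  · by_cases h : SS.Negligible (fun n => allDim C G (pw X n)) (fun n => hodgeDim T (pw X n))
    · exact Or.inr ⟨hasIndex_top (Cmp.Negligible.mono h fun n => motDim_le_all C hG _)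
        (fun n => motDim_pos n), h⟩
    · have h4 := hodge_all C hG hc h
      refine Or.inl ⟨?_, h4⟩
      have e1 : (fun n => hodgeDim T (pw X n)) = fun n => allDim C G (pw X n) :=
        funext fun n => hodgeDim_eq C hG (h4 n)
      rw [e1]
      exact h2
  · by_cases h : SS.Negligible (fun n => allDim C G (pw X n)) (fun n => tateDim (G i) (pw X n))
    · exact Or.inr ⟨hasIndex_top (Cmp.Negligible.mono h fun n => motDim_le_all C hG _)
        (fun n => motDim_pos n), h⟩
    · have h4 := tate_all C hG hc i h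
      refine Or.inl ⟨?_, h4⟩
      have e1 : (fun n => tateDim (G i) (pw X n)) = fun n => allDim C G (pw X n) :=
        funext fun n => tateDim_eq C hG (h4 n).1
      rw [e1]
      exact h2

end Pool.Agent.NH34.Cmp

namespace Pool.Agent.NH34.Law

open Pool.Agent.H914 Pool.Agent.H914.VarClass Pool.Agent.H914.VarClass.Obj
  Pool.Agent.H914.WeilCohomology
open Pool.Agent.NH34.Lin Pool.Agent.NH34.Gal Pool.Agent.NH34.Hdg Pool.Agent.NH34.Cmp
  Pool.Agent.NH34.Mot
open Pool.Agent.Y133.Half (pw HasIndex)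

variable {k : Type u} [Field k] {𝒱 : VarClass k} {ops : CycleOps 𝒱}
  {T : HodgeTheory ops} {ι : Type v} {W : ι → WeilCohomology.{u, 0} ops} {Γ : Type w} [Group Γ]
  {C : ∀ i, ArtinComparison T.W (W i)} {G : ∀ i, ActionData (W i) Γ} {X : 𝒱.Obj}

lemma absNum_eq : absNum C G X = allDim (T := conv T) (fun i => cc (C i)) G X := rfl

lemma hodgeIsAbsolute_iff : HodgeIsAbsolute C G X ↔
    ∀ j c, Pool.Agent.Y121.AHS.IsHodge (conv T) X j c →
      HodgeTates (T := conv T) (fun i => cc (C i)) G X j c := Iff.rfl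

lemma tateIsAbsolute_iff {i : ι} : TateIsAbsolute C G i X ↔
    ∀ j c, IsTate (G i) X j c → c ∈ spanImage (W i).K ((C i).γ X)
      (HodgeTates (T := conv T) (fun i => cc (C i)) G X j) := Iff.rfl

/-- **Independence of the prime.** -/
theorem independence [TopologicalSpace Γ] [IsTopologicalGroup Γ] [CompactSpace Γ]
    [TotallyDisconnectedSpace Γ] {ℓ : ι → ℕ} [∀ i, Fact (ℓ i).Prime]
    {e : ∀ i, (W i).K ≃+* ℚ_[ℓ i]} (hG : ∀ i, IsGaloisTheory (G i))
    (hc : ∀ i, IsContinuousTheory (e i) (G i)) (X : 𝒱.Obj) [Nontrivial (T.W.H X)] :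
    ∃ N : ℕ∞, 1 ≤ N ∧ HasIndex (fun n => absNum C G (pw X n)) (fun n => motNum T (pw X n)) N ∧
      (N = 1 ↔ ∀ n, AbsoluteIsMotivated C G (pw X n)) ∧
      ((HasIndex (fun n => hodgeNum T (pw X n)) (fun n => motNum T (pw X n)) N ∧
          ∀ n, HodgeIsAbsolute C G (pw X n)) ∨
        (HasIndex (fun n => hodgeNum T (pw X n)) (fun n => motNum T (pw X n)) ⊤ ∧
          Negligible (fun n => absNum C G (pw X n)) (fun n => hodgeNum T (pw X n)))) ∧
      ∀ i, (HasIndex (fun n => tateNum (G i) (pw X n)) (fun n => motNum T (pw X n)) N ∧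
          ∀ n, TateIsAbsolute C G i (pw X n) ∧ TateIsPerfect (G i) (pw X n)) ∨
        (HasIndex (fun n => tateNum (G i) (pw X n)) (fun n => motNum T (pw X n)) ⊤ ∧
          Negligible (fun n => absNum C G (pw X n)) (fun n => tateNum (G i) (pw X n))) := by
  have : Nontrivial ((conv T).W.H X) := inferInstanceAs (Nontrivial (T.W.H X))
  obtain ⟨N, h1, h2, h3, h4, h5⟩ := Pool.Agent.NH34.Cmp.independence (T := conv T)
    (fun i => cc (C i)) hG hc X
  have e1 : (fun n => motNum T (pw X n)) = fun n => motDim (conv T) (pw X n) :=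
    funext fun n => motNum_eq _
  rw [e1]
  refine ⟨N, h1, h2, h3.trans ?_, h4, h5⟩
  constructor
  · intro h n j c hc
    exact isMotivated_iff.2 (h n j c hc)
  · intro h n j c hc
    exact isMotivated_iff.1 (h n j c hc)

end Pool.Agent.NH34.Law
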