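import Pool.Agent.NH34.Cmp.AlgDefs
import Pool.Agent.NH34.Cmp.FFin

/-!
# Algebraic classes, Hodge classes and Tate classes
-/

open CategoryTheory AlgebraicGeometry TensorProduct Filter Topology

open scoped ENNReal

universe u v w

namespace Pool.Agent.NH34.Cmp

open Module
open Pool.Agent.H914 Pool.Agent.H914.VarClass Pool.Agent.H914.VarClass.Obj
  Pool.Agent.H914.WeilCohomology Pool.Agent.Y121.AHS
open Pool.Agent.NH34.Lin Pool.Agent.NH34.Gal Pool.Agent.NH34.SS Pool.Agent.NH34.ZO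
open Pool.Agent.Y133.Half Pool.Agent.Y133.Half.Sys Pool.Agent.R920.MT
open Pool.Agent.H281R3.HT (algSpan)
open Pool.Agent.NH34.Law (IsCycleClass cycNum HomIsNum)

lemma hasIndex_top' {s t : ℕ → ℕ} (h : SS.Negligible s t) (ht : ∀ n, 0 < t n) :
    HasIndex t s ⊤ := by
  unfold HasIndex
  rw [ENat.toENNReal_top, ENNReal.tendsto_nhds_top_iff_nat]
  intro m
  obtain ⟨n₀, h0⟩ := h (m + 1)
  refine eventually_atTop.2 ⟨n₀, fun n hn => ?_⟩
  rcases Nat.eq_zero_or_pos (s n) with h3 | h3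
  · rw [h3, Nat.cast_zero, ENNReal.div_zero (by exact_mod_cast (ht n).ne')]
    exact ENNReal.natCast_lt_top m
  · have h1 : ((m + 1 : ℕ) : ℝ≥0∞) ≤ (t n : ℝ≥0∞) / s n := by
      rw [ENNReal.le_div_iff_mul_le (Or.inl (by exact_mod_cast h3.ne'))
        (Or.inl (ENNReal.natCast_ne_top _))]
      exact_mod_cast h0 n hn
    refine lt_of_lt_of_le ?_ h1
    exact_mod_cast Nat.lt_succ_self m

lemma HasIndex.unique {t s : ℕ → ℕ} {N M : ℕ∞} (h : HasIndex t s N) (h' : HasIndex t s M) :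
    N = M := by
  have h1 := tendsto_nhds_unique h h'
  exact_mod_cast h1

section Cyc

variable {k : Type u} [Field k] {𝒱 : VarClass k} {ops : CycleOps 𝒱}
  (V : WeilCohomology.{u, v} ops) {X Z : 𝒱.Obj}

lemma spanOf_cyc (Z : 𝒱.Obj) : spanOf V.K (IsCycleClass V Z) = algSpan V Z := by
  have h : {c | ∃ j, IsCycleClass V Z j c} = ⋃ j, Pool.Agent.H914.algClasses V Z j := by
    ext c
    rw [Set.mem_iUnion]
    rfl
  exact congrArg (Submodule.span V.K) h

lemma cycNum_eq (Z : 𝒱.Obj) : cycNum V Z = cycRank ops Z := by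
  have h1 := (algSys V).a_add_num Z
  have h2 : (algSys V).Num Z = nullOf (V.tr Z) (algSpan V Z) := by
    ext c
    constructor
    · rintro ⟨h1, h2⟩; exact ⟨h1, h2⟩
    · rintro ⟨h1, h2⟩; exact ⟨h1, h2⟩
  rw [h2, numDim_eq_cycRank] at h1
  have h3 : cycNum V Z = finrank V.K (algSpan V Z) -
      finrank V.K (nullOf (V.tr Z) (algSpan V Z)) := by
    unfold cycNum rankBy rankOn Lin.dimOf
    rw [spanOf_cyc]
  rw [h3]
  have h4 : (algSys V).C Z = algSpan V Z := rfl
  rw [h4] at h1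
  omega

lemma homIsNum_iff : HomIsNum V Z ↔ HomEqNum V Z := by
  rw [homEqNum_iff]
  have h2 : (algSys V).Num Z = nullOf (V.tr Z) (algSpan V Z) := by
    ext c
    constructor
    · rintro ⟨h1, h2⟩; exact ⟨h1, h2⟩
    · rintro ⟨h1, h2⟩; exact ⟨h1, h2⟩
  rw [h2]
  unfold HomIsNum NondegBy NondegOn
  rw [spanOf_cyc]

lemma homEqNum_of_nondeg (h : (algSys V).Nondeg Z) : HomEqNum V Z := by
  rw [homEqNum_iff, eq_bot_iff]
  rintro c ⟨h1, h2⟩
  rw [Submodule.mem_bot]
  exact h c h1 h2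

/-- The index of the algebraic classes in a larger class of classes. -/
lemma pred_index (Q : ClassPred V) (X : 𝒱.Obj) [Nontrivial (V.H X)] :
    ∃ N : ℕ∞, 1 ≤ N ∧ HasIndex (fun n => dimBy V Q.P (pw X n)) (fun n => cycRank ops (pw X n)) N ∧
      (N = 1 ↔ ∀ n, Q.sys.C (pw X n) = algSpan V (pw X n) ∧ HomEqNum V (pw X n)) ∧
      (N ≠ ⊤ → ∀ n, HomEqNum V (pw X n)) := by
  obtain ⟨N, h1, h2, -, h4, h5⟩ := Q.sys.index (fun _ => ClassPred.alg_le) X
  exact ⟨N, h1, h2, h4, h5⟩

end Cyc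

variable {k : Type u} [Field k] {𝒱 : VarClass k} {ops : CycleOps 𝒱}

section Desc

variable {V W : WeilCohomology.{u, 0} ops} (C : ArtinComparison V W) {X Z : 𝒱.Obj}

/-- Descent of linear combinations. -/
lemma mem_of_spanImage {U : Submodule V.K (V.H X)} {c : V.H X}
    (h : C.γ X c ∈ spanImage W.K (C.γ X) (· ∈ U)) : c ∈ U := by
  let _ : Algebra V.K W.K := C.σ.toAlgebra
  have hW : C.Compat W.K := fun r => rfl
  have h1 : ∀ y ∈ spanImage W.K (C.γ X) (· ∈ U), ∃ x ∈ U.baseChange W.K, theta C hW X x = y := by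
    intro y hy
    unfold spanImage at hy
    induction hy using Submodule.span_induction with
    | mem y hy =>
      obtain ⟨a, ha, rfl⟩ := hy
      exact ⟨(1 : W.K) ⊗ₜ[V.K] a, Submodule.tmul_mem_baseChange_of_mem _ ha, by
        rw [theta_tmul, one_smul]⟩
    | zero => exact ⟨0, Submodule.zero_mem _, map_zero _⟩
    | add x y _ _ hx hy =>
      obtain ⟨a, ha, rfl⟩ := hx
      obtain ⟨b, hb, rfl⟩ := hy
      exact ⟨a + b, Submodule.add_mem _ ha hb, map_add _ _ _⟩
    | smul r x _ hx =>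
      obtain ⟨a, ha, rfl⟩ := hx
      exact ⟨r • a, Submodule.smul_mem _ _ ha, map_smul _ _ _⟩
  obtain ⟨x, hx, h2⟩ := h1 _ h
  have h3 : theta C hW X ((1 : W.K) ⊗ₜ[V.K] c) = C.γ X c := by rw [theta_tmul, one_smul]
  rw [← h3] at h2
  have h4 := (theta C hW X).injective h2
  rw [h4] at hx
  exact Pool.Agent.Y121.AH.mem_of_em_mem hx

end Desc

section Law

variable {T : HodgeTheory ops} {ι : Type v} {W : ι → WeilCohomology.{u, 0} ops}
  (C : ∀ i, ArtinComparison T.W (W i)) {X Y Z : 𝒱.Obj} {j : ℕ}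
  {Γ : Type w} [Group Γ] {G : ∀ i, ActionData (W i) Γ}

/-- The Hodge classes. -/
noncomputable def hodgeP (T : HodgeTheory ops) : ClassPred T.W := Pool.Agent.Y121.AH.hodgePred (toH T)

lemma hodge_nondeg (T : HodgeTheory ops) (Z : 𝒱.Obj) : (hodgeP T).sys.Nondeg Z := by
  intro x hx h
  refine Pool.Agent.Y121.AH.q_nondeg_sys (T := toH T) (Q := Pool.Agent.Y121.AH.hodgePred (toH T))
    (fun h => h) ?_ hx h
  intro X D hD j hj v hv
  have h0 : v ∈ T.W.gr X (2 * X.dim - 2 * j) := by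
    have := (Pool.Agent.Y121.AH.hodgePred (toH T)).gr hv
    rwa [show 2 * (X.dim - j) = 2 * X.dim - 2 * j by omega] at this
  obtain ⟨x, hx, hxv⟩ := Pool.Agent.Y121.AH.hl_surj hD.2.1 hj h0
  refine ⟨x, ?_, hxv⟩
  refine (isSystem_hodge (toH T)).lift X D j hD.1 hD.2.1 hj x hx ?_
  have h1 : powMul ((toH T).W.cl X D) (X.dim - 2 * j) x = v := hxv
  rw [h1]
  exact hv

/-- Condition for the index to be equal to one. -/
lemma one_iff {V : WeilCohomology.{u, 0} ops} {Q : ClassPred V}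
    (hQ : ∀ n, Q.sys.Nondeg (pw X n)) :
    (∀ n, Q.sys.C (pw X n) = algSpan V (pw X n) ∧ HomEqNum V (pw X n)) ↔
      ∀ n j c, Q.P (pw X n) j c → c ∈ spanCycles V (pw X n) j := by
  constructor
  · intro h n j c hc
    exact (ClassPred.sp_eq_iff (Q := Q) _).1 (h n).1 j c hc
  · intro h n
    have e1 := (ClassPred.sp_eq_iff (Q := Q) (pw X n)).2 (h n)
    refine ⟨e1, homEqNum_of_nondeg V fun c hc hc' => ?_⟩
    refine hQ n c (ClassPred.alg_le hc) fun y hy => hc' y ?_
    rw [e1] at hy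
    exact hy

lemma homEqNum_along {V W : WeilCohomology.{u, 0} ops} (C : ArtinComparison V W)
    (h : HomEqNum V Z) : HomEqNum W Z := by
  intro j hj z hz hzz
  rw [← C.cyc, h j hj z hz hzz, map_zero]

variable (hG : ∀ i, IsGaloisTheory (G i))
include hG

lemma cycRank_le_all (Z : 𝒱.Obj) : cycRank ops Z ≤ allDim C G Z := by
  rw [← numDim_eq_cycRank T.W Z, ← a_all C hG]
  exact a_mono (S := algSys T.W) (T := (allPred C hG).sys) (fun _ => ClassPred.alg_le) Z

/-- **Algebraic classes, Hodge classes and Tate classes.** -/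
theorem alg_law [TopologicalSpace Γ] [IsTopologicalGroup Γ] [CompactSpace Γ]
    [TotallyDisconnectedSpace Γ] {ℓ : ι → ℕ} [∀ i, Fact (ℓ i).Prime]
    {e : ∀ i, (W i).K ≃+* ℚ_[ℓ i]} (hc : ∀ i, IsContinuousTheory (e i) (G i))
    (X : 𝒱.Obj) [Nontrivial (T.W.H X)] :
    ∃ N : ℕ∞, 1 ≤ N ∧
      HasIndex (fun n => allDim C G (pw X n)) (fun n => cycRank ops (pw X n)) N ∧
      (N = 1 ↔ ∀ n j c, HodgeTates C G (pw X n) j c → c ∈ spanCycles T.W (pw X n) j) ∧
      (N ≠ ⊤ → ∀ n, HomEqNum T.W (pw X n)) ∧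
      (((HasIndex (fun n => hodgeDim T (pw X n)) (fun n => cycRank ops (pw X n)) N ∧
          ∀ n j c, IsHodge T (pw X n) j c → HodgeTates C G (pw X n) j c) ∨
        (HasIndex (fun n => hodgeDim T (pw X n)) (fun n => cycRank ops (pw X n)) ⊤ ∧
          SS.Negligible (fun n => allDim C G (pw X n)) (fun n => hodgeDim T (pw X n)))) ∧
       (HasIndex (fun n => hodgeDim T (pw X n)) (fun n => cycRank ops (pw X n)) 1 ↔
          ∀ n j c, IsHodge T (pw X n) j c → c ∈ spanCycles T.W (pw X n) j)) ∧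
      ∀ i, ((HasIndex (fun n => tateDim (G i) (pw X n)) (fun n => cycRank ops (pw X n)) N ∧
          ∀ n, (∀ j c, IsTate (G i) (pw X n) j c → c ∈ spanImage (W i).K ((C i).γ (pw X n))
            (HodgeTates C G (pw X n) j)) ∧ PerfectPairing (G i) (pw X n)) ∨
        (HasIndex (fun n => tateDim (G i) (pw X n)) (fun n => cycRank ops (pw X n)) ⊤ ∧
          SS.Negligible (fun n => allDim C G (pw X n)) (fun n => tateDim (G i) (pw X n)))) ∧
       (HasIndex (fun n => tateDim (G i) (pw X n)) (fun n => cycRank ops (pw X n)) 1 ↔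
          ∀ n j c, IsTate (G i) (pw X n) j c → c ∈ spanImage (W i).K ((C i).γ (pw X n))
            (IsCycleClass T.W (pw X n) j)) := by
  obtain ⟨N, h1, h2, h3, h4⟩ := pred_index T.W (allPred C hG) X
  rw [one_iff fun n => all_nondeg C hG _] at h3
  refine ⟨N, h1, h2, h3, h4, ⟨?_, ?_⟩, fun i => ⟨?_, ?_⟩⟩
  · by_cases h : SS.Negligible (fun n => allDim C G (pw X n)) (fun n => hodgeDim T (pw X n))
    · refine Or.inr ⟨hasIndex_top' (Cmp.Negligible.mono h fun n => cycRank_le_all C hG _)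
        (fun n => ?_), h⟩
      exact (hodgeP T).sys.finrank_pos_pw n
    · have h5 := hodge_all C hG hc h
      refine Or.inl ⟨?_, h5⟩
      have e1 : (fun n => hodgeDim T (pw X n)) = fun n => allDim C G (pw X n) :=
        funext fun n => hodgeDim_eq C hG (h5 n)
      rw [e1]
      exact h2
  · obtain ⟨M, -, k2, k3, -⟩ := pred_index T.W (hodgeP T) X
    rw [one_iff fun n => hodge_nondeg T _] at k3
    constructor
    · intro h
      exact k3.1 (HasIndex.unique k2 h)
    · intro h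
      have h5 := k3.2 h
      rw [h5] at k2
      exact k2
  · by_cases h : SS.Negligible (fun n => allDim C G (pw X n)) (fun n => tateDim (G i) (pw X n))
    · have : Nontrivial ((W i).H X) := nontrivial_H (C i)
      refine Or.inr ⟨hasIndex_top' (Cmp.Negligible.mono h fun n => cycRank_le_all C hG _)
        (fun n => ?_), h⟩
      exact (tatePred (hG i)).sys.finrank_pos_pw n
    · have h5 := tate_all C hG hc i h
      refine Or.inl ⟨?_, h5⟩
      have e1 : (fun n => tateDim (G i) (pw X n)) = fun n => allDim C G (pw X n) :=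
        funext fun n => tateDim_eq C hG (h5 n).1
      rw [e1]
      exact h2
  · have : Nontrivial ((W i).H X) := nontrivial_H (C i)
    obtain ⟨M, -, k2, k3, -⟩ := pred_index (W i) (tatePred (hG i)) X
    constructor
    · intro h n j c hc
      have h5 := k3.1 (HasIndex.unique k2 h) n
      have h6 := (ClassPred.sp_eq_iff (Q := tatePred (hG i)) _).1 h5.1 j c hc
      refine Submodule.span_mono ?_ h6
      rintro _ ⟨p, hp, z, hz, rfl⟩
      obtain rfl : p = j := by exact_mod_cast hp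
      exact ⟨T.W.cl _ z, ⟨z, hz, rfl⟩, (C i).cyc _ z⟩
    · intro h
      have h5 : N = 1 := by
        rw [h3]
        intro n j c hcA
        refine mem_of_spanImage (C i) ?_
        refine Submodule.span_mono ?_ (h n j _ (hcA.2 i))
        rintro _ ⟨_, ⟨z, hz, rfl⟩, rfl⟩
        exact ⟨T.W.cl _ z, Submodule.subset_span ⟨j, rfl, z, hz, rfl⟩, rfl⟩
      have h6 := h4 (by rw [h5]; exact ENat.one_ne_top)
      have h7 : M = 1 := by
        rw [k3]
        intro n
        refine ⟨(ClassPred.sp_eq_iff (Q := tatePred (hG i)) _).2 fun j c hcj => ?_,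
          homEqNum_along (C i) (h6 n)⟩
        refine Submodule.span_mono ?_ (h n j c hcj)
        rintro _ ⟨_, ⟨z, hz, rfl⟩, rfl⟩
        exact ⟨j, rfl, z, hz, ((C i).cyc _ z).symm⟩
      rw [h7] at k2
      exact k2

end Law

end Pool.Agent.NH34.Cmp
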