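import Pool.Agent.NH34.Cmp.FDefs

/-!
# Algebraic classes, Hodge classes and Tate classes: definitions
-/

open CategoryTheory AlgebraicGeometry

universe u v w

namespace Pool.Agent.NH34.Law

open Pool.Agent.H914 Pool.Agent.H914.VarClass Pool.Agent.H914.VarClass.Obj
  Pool.Agent.H914.WeilCohomology
open Pool.Agent.NH34.Lin Pool.Agent.NH34.Gal Pool.Agent.NH34.Hdg Pool.Agent.NH34.Cmp

variable {k : Type u} [Field k] {𝒱 : VarClass k} {ops : CycleOps 𝒱}

/-- `c` is the class of an algebraic cycle of codimension `j` (with rational coefficients) on `X`. -/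
def IsCycleClass (W : WeilCohomology.{u, v} ops) (X : 𝒱.Obj) (j : ℕ) (c : W.H X) : Prop :=
  ∃ z, X.IsCyc j z ∧ W.cl X z = c

/-- The rank of the intersection form on the space spanned by the classes of the algebraic cycles on
`X`: the rank of the group of the cycles modulo numerical equivalence. -/
noncomputable def cycNum (W : WeilCohomology.{u, v} ops) (X : 𝒱.Obj) : ℕ :=
  rankBy (W.tr X) (IsCycleClass W X)

/-- The intersection form is nondegenerate on the space spanned by the classes of the algebraic
cycles on `X`: homological and numerical equivalence agree. -/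
def HomIsNum (W : WeilCohomology.{u, v} ops) (X : 𝒱.Obj) : Prop :=
  NondegBy (W.tr X) (IsCycleClass W X)

variable {T : HodgeTheory ops} {ι : Type v} {W : ι → WeilCohomology.{u, 0} ops} {Γ : Type w}
  [Group Γ]

/-- All Hodge classes on `X` are algebraic. -/
def HodgeIsAlgebraic (T : HodgeTheory ops) (X : 𝒱.Obj) : Prop :=
  AllCombs T.W.K (RingHom.id (T.W.H X)) (IsCycleClass T.W X) (IsHodge T X)

/-- All Tate classes on `X` for the index `i` are linear combinations of classes of algebraic
cycles. -/
def TateIsAlgebraic (C : ∀ i, ArtinComparison T.W (W i)) (G : ∀ i, ActionData (W i) Γ) (i : ι)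
    (X : 𝒱.Obj) : Prop :=
  AllCombs (W i).K ((C i).γ X) (IsCycleClass T.W X) (IsTate (G i) X)

/-- All Hodge classes on `X` which are Tate classes for all indices are algebraic. -/
def AbsoluteIsAlgebraic (C : ∀ i, ArtinComparison T.W (W i)) (G : ∀ i, ActionData (W i) Γ)
    (X : 𝒱.Obj) : Prop :=
  AllCombs T.W.K (RingHom.id (T.W.H X)) (IsCycleClass T.W X) (IsAbsolute C G X)

end Pool.Agent.NH34.Law
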