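import Pool.Agent.NH34.Cmp.Alg

/-!
# The final statements on algebraic classes
-/

open CategoryTheory AlgebraicGeometry TensorProduct Filter Topology

universe u v w

namespace Pool.Agent.NH34.Law

open Module
open Pool.Agent.H914 Pool.Agent.H914.VarClass Pool.Agent.H914.VarClass.Obj
  Pool.Agent.H914.WeilCohomology
open Pool.Agent.NH34.Lin Pool.Agent.NH34.Gal Pool.Agent.NH34.Hdg Pool.Agent.NH34.Cmp
open Pool.Agent.Y133.Half (pw HasIndex cycRank)

variable {k : Type u} [Field k] {𝒱 : VarClass k} {ops : CycleOps 𝒱}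
  {T : HodgeTheory ops} {ι : Type v} {W : ι → WeilCohomology.{u, 0} ops} {Γ : Type w} [Group Γ]
  {C : ∀ i, ArtinComparison T.W (W i)} {G : ∀ i, ActionData (W i) Γ} {X Z : 𝒱.Obj}

lemma span_cyc_iff {V : WeilCohomology.{u, 0} ops} {j : ℕ} {c : V.H Z} :
    IsComb V.K (RingHom.id (V.H Z)) (IsCycleClass V Z j) c ↔ c ∈ spanCycles V Z j := by
  have h : {b | ∃ a, IsCycleClass V Z j a ∧ RingHom.id (V.H Z) a = b} =
      {c | ∃ p : ℕ, (p : ℤ) = j ∧ ∃ z, Z.IsCyc p z ∧ V.cl Z z = c} := by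
    ext c
    constructor
    · rintro ⟨_, ⟨z, hz, rfl⟩, rfl⟩
      exact ⟨j, rfl, z, hz, rfl⟩
    · rintro ⟨p, hp, z, hz, rfl⟩
      obtain rfl : p = j := by exact_mod_cast hp
      exact ⟨_, ⟨z, hz, rfl⟩, rfl⟩
  change c ∈ Submodule.span V.K _ ↔ c ∈ Submodule.span V.K _
  rw [h]

/-- **Algebraic classes, Hodge classes and Tate classes.** -/
theorem alg_law [TopologicalSpace Γ] [IsTopologicalGroup Γ] [CompactSpace Γ]
    [TotallyDisconnectedSpace Γ] {ℓ : ι → ℕ} [∀ i, Fact (ℓ i).Prime]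
    {e : ∀ i, (W i).K ≃+* ℚ_[ℓ i]} (hG : ∀ i, IsGaloisTheory (G i))
    (hc : ∀ i, IsContinuousTheory (e i) (G i)) (X : 𝒱.Obj) [Nontrivial (T.W.H X)] :
    ∃ N : ℕ∞, 1 ≤ N ∧
      HasIndex (fun n => absNum C G (pw X n)) (fun n => cycNum T.W (pw X n)) N ∧
      (N = 1 ↔ ∀ n, AbsoluteIsAlgebraic C G (pw X n)) ∧
      (N ≠ ⊤ → ∀ n, HomIsNum T.W (pw X n)) ∧
      (((HasIndex (fun n => hodgeNum T (pw X n)) (fun n => cycNum T.W (pw X n)) N ∧
          ∀ n, HodgeIsAbsolute C G (pw X n)) ∨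
        (HasIndex (fun n => hodgeNum T (pw X n)) (fun n => cycNum T.W (pw X n)) ⊤ ∧
          Negligible (fun n => absNum C G (pw X n)) (fun n => hodgeNum T (pw X n)))) ∧
       (HasIndex (fun n => hodgeNum T (pw X n)) (fun n => cycNum T.W (pw X n)) 1 ↔
          ∀ n, HodgeIsAlgebraic T (pw X n))) ∧
      ∀ i, ((HasIndex (fun n => tateNum (G i) (pw X n)) (fun n => cycNum T.W (pw X n)) N ∧
          ∀ n, TateIsAbsolute C G i (pw X n) ∧ TateIsPerfect (G i) (pw X n)) ∨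
        (HasIndex (fun n => tateNum (G i) (pw X n)) (fun n => cycNum T.W (pw X n)) ⊤ ∧
          Negligible (fun n => absNum C G (pw X n)) (fun n => tateNum (G i) (pw X n)))) ∧
       (HasIndex (fun n => tateNum (G i) (pw X n)) (fun n => cycNum T.W (pw X n)) 1 ↔
          ∀ n, TateIsAlgebraic C G i (pw X n)) := by
  have : Nontrivial ((conv T).W.H X) := inferInstanceAs (Nontrivial (T.W.H X))
  obtain ⟨N, h1, h2, h3, h4, ⟨h5, h6⟩, h7⟩ := Pool.Agent.NH34.Cmp.alg_law (T := conv T)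
    (fun i => cc (C i)) hG hc X
  have e1 : (fun n => cycNum T.W (pw X n)) = fun n => cycRank ops (pw X n) :=
    funext fun n => cycNum_eq T.W _
  rw [e1]
  refine ⟨N, h1, h2, h3.trans ?_, fun hN n => (homIsNum_iff _).2 (h4 hN n), ⟨h5, h6.trans ?_⟩,
    fun i => ⟨(h7 i).1, (h7 i).2⟩⟩
  · constructor
    · intro h n j c hc
      exact span_cyc_iff.2 (h n j c hc)
    · intro h n j c hc
      exact span_cyc_iff.1 (h n j c hc)
  · constructor
    · intro h n j c hc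
      exact span_cyc_iff.2 (h n j c hc)
    · intro h n j c hc
      exact span_cyc_iff.1 (h n j c hc)

end Pool.Agent.NH34.Law
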