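import Pool.Agent.NH34.Cmp.Phi
import Pool.Agent.Y133.Half.PairBase

/-!
# Systems of classes in the `ℓ`-adic cohomology from systems of rational classes
-/

open CategoryTheory AlgebraicGeometry TensorProduct

universe u w

namespace Pool.Agent.NH34.Cmp

open Module
open Pool.Agent.H914 Pool.Agent.H914.VarClass Pool.Agent.H914.VarClass.Obj
  Pool.Agent.H914.WeilCohomology Pool.Agent.Y121.AHS
open Pool.Agent.NH34.Lin Pool.Agent.NH34.Gal Pool.Agent.NH34.SS
open Pool.Agent.Y133.Half Pool.Agent.Y133.Half.Sys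

variable {k : Type u} [Field k] {𝒱 : VarClass k} {ops : CycleOps 𝒱}
  {V W : WeilCohomology.{u, 0} ops} (C : ArtinComparison V W) (Q : ClassPred V)
  {X Y Z : 𝒱.Obj} {j : ℕ}

/-- The linear combinations with coefficients in `ℚ_ℓ` of the classes with the property `Q`. -/
def ladic (X : 𝒱.Obj) (j : ℕ) : Submodule W.K (W.H X) := spanImage W.K (C.γ X) (Q.P X j)

/-- Induction for linear combinations. -/
lemma ladic_ind {p : W.H X → Prop} (h : ∀ (r : W.K) (a : V.H X), Q.P X j a →
    p (r • C.γ X a)) (hadd : ∀ x y, p x → p y → p (x + y)) {x : W.H X}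
    (hx : x ∈ ladic C Q X j) : p x := by
  have h0 : p 0 := by
    have := h 0 0 Q.zero
    rwa [zero_smul] at this
  have key : ∀ r : W.K, p (r • x) := by
    unfold ladic spanImage at hx
    induction hx using Submodule.span_induction with
    | mem x hx => obtain ⟨a, ha, rfl⟩ := hx; exact fun r => h r a ha
    | zero => intro r; rw [smul_zero]; exact h0
    | add x y _ _ hx hy => intro r; rw [smul_add]; exact hadd _ _ (hx r) (hy r)
    | smul s x _ hx => intro r; rw [smul_smul]; exact hx _
  have := key 1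
  rwa [one_smul] at this

variable {C Q}

lemma mem_ladic {c : V.H X} (hc : Q.P X j c) : C.γ X c ∈ ladic C Q X j :=
  Submodule.subset_span ⟨c, hc, rfl⟩

variable (C Q)

/-- The linear combinations with coefficients in `ℚ_ℓ` of the classes with the property `Q`. -/
def along : ClassPred W where
  P X j c := c ∈ ladic C Q X j
  gr {X j c} h := by
    refine ladic_ind C Q (p := fun c => c ∈ W.gr X (2 * j)) ?_ ?_ h
    · intro r a ha
      exact Submodule.smul_mem _ _ (C.gr' (Q.gr ha))
    · intro x y hx hy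
      exact Submodule.add_mem _ hx hy
  zero := Submodule.zero_mem _
  add := Submodule.add_mem _
  smul r _ ha := Submodule.smul_mem _ r ha
  cl {X j z} hz := by
    rw [← C.cyc]
    exact mem_ladic (Q.cl hz)
  mul {X i j a b} ha hb := by
    refine ladic_ind C Q (p := fun a => a * b ∈ ladic C Q X (i + j)) ?_ ?_ ha
    · intro r a ha
      refine ladic_ind C Q (p := fun b => r • C.γ X a * b ∈ ladic C Q X (i + j)) ?_ ?_ hb
      · intro s b hb
        rw [smul_mul_smul_comm, ← map_mul]
        exact Submodule.smul_mem _ _ (mem_ladic (Q.mul ha hb))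
      · intro x y hx hy
        rw [mul_add]
        exact Submodule.add_mem _ hx hy
    · intro x y hx hy
      rw [add_mul]
      exact Submodule.add_mem _ hx hy
  map {X Y} f {j a} ha := by
    refine ladic_ind C Q (p := fun a => W.map f a ∈ ladic C Q X j) ?_ ?_ ha
    · intro r a ha
      rw [map_smul, ← C.nat']
      exact Submodule.smul_mem _ _ (mem_ladic (Q.map f ha))
    · intro x y hx hy
      rw [map_add]
      exact Submodule.add_mem _ hx hy
  push {X Y} f {j l} hl {a} ha := by
    refine ladic_ind C Q (p := fun a => W.push f a ∈ ladic C Q Y l) ?_ ?_ ha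
    · intro r a ha
      rw [map_smul, ← C.push']
      exact Submodule.smul_mem _ _ (mem_ladic (Q.push f hl ha))
    · intro x y hx hy
      rw [map_add]
      exact Submodule.add_mem _ hx hy

lemma along_mono {Q Q' : ClassPred V} (h : ∀ {Z : 𝒱.Obj} {j : ℕ} {c : V.H Z}, Q.P Z j c →
    Q'.P Z j c) {Z : 𝒱.Obj} {j : ℕ} {c : W.H Z} (hc : (along C Q).P Z j c) :
    (along C Q').P Z j c := by
  refine ladic_ind C Q (p := fun c => c ∈ ladic C Q' Z j) ?_ ?_ hc
  · intro r a ha
    exact Submodule.smul_mem _ _ (mem_ladic (h ha))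
  · intro x y hx hy
    exact Submodule.add_mem _ hx hy

section Theta

variable [Algebra V.K W.K] (hW : C.Compat W.K)

/-- The comparison isomorphism. -/
noncomputable def theta (X : 𝒱.Obj) : W.K ⊗[V.K] V.H X ≃ₗ[W.K] W.H X :=
  (C.Φe hW X).trans (TensorProduct.lid W.K (W.H X))

lemma theta_tmul (l : W.K) (a : V.H X) : theta C hW X (l ⊗ₜ[V.K] a) = l • C.γ X a := by
  rw [theta, LinearEquiv.trans_apply, C.Φe_apply, C.Φ_tmul, TensorProduct.lid_tmul]

lemma theta_mul (x y : W.K ⊗[V.K] V.H X) :
    theta C hW X (x * y) = theta C hW X x * theta C hW X y := by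
  refine tmul_induction (P := fun x => theta C hW X (x * y) =
    theta C hW X x * theta C hW X y) ?_ ?_ ?_ x
  · rw [zero_mul, map_zero, zero_mul]
  · intro x z hx hz
    rw [add_mul, map_add, hx, hz, map_add, add_mul]
  · intro l a
    refine tmul_induction (P := fun y => theta C hW X (l ⊗ₜ[V.K] a * y) =
      theta C hW X (l ⊗ₜ[V.K] a) * theta C hW X y) ?_ ?_ ?_ y
    · rw [mul_zero, map_zero, mul_zero]
    · intro x z hx hz
      rw [mul_add, map_add, hx, hz, map_add, mul_add]
    · intro l' b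
      rw [Algebra.TensorProduct.tmul_mul_tmul, theta_tmul, theta_tmul, theta_tmul, map_mul,
        smul_mul_smul_comm]

lemma theta_tr (x : W.K ⊗[V.K] V.H X) :
    W.tr X (theta C hW X x) = formBase W.K (V.tr X) x := by
  refine tmul_induction (P := fun x => W.tr X (theta C hW X x) =
    formBase W.K (V.tr X) x) ?_ ?_ ?_ x
  · simp only [map_zero]
  · intro x z hx hz
    simp only [map_add, hx, hz]
  · intro l a
    rw [theta_tmul, map_smul, formBase_tmul, C.tr', smul_eq_mul, hW]
    rfl

lemma theta_mem {x : W.K ⊗[V.K] V.H Z} (hx : x ∈ (Q.sys.C Z).baseChange W.K) :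
    theta C hW Z x ∈ (along C Q).sys.C Z := by
  refine base_induction (P := fun x => theta C hW Z x ∈ (along C Q).sys.C Z) ?_ ?_ ?_ hx
  · rw [map_zero]; exact Submodule.zero_mem _
  · intro x y hx hy
    rw [map_add]; exact Submodule.add_mem _ hx hy
  · intro l a ha
    rw [theta_tmul]
    refine Submodule.smul_mem _ _ ?_
    refine ClassPred.sp_ind (Q := Q) (q := fun a => C.γ Z a ∈ (along C Q).sys.C Z) ?_ ?_ ?_ ha
    · intro j a ha
      exact ClassPred.sp_of (Q := along C Q) (j := j) (mem_ladic ha)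
    · rw [map_zero]; exact Submodule.zero_mem _
    · intro a b ha hb
      rw [map_add]; exact Submodule.add_mem _ ha hb

lemma exists_theta {y : W.H Z} (hy : y ∈ (along C Q).sys.C Z) :
    ∃ x ∈ (Q.sys.C Z).baseChange W.K, theta C hW Z x = y := by
  refine ClassPred.sp_ind (Q := along C Q) (q := fun y => ∃ x ∈ (Q.sys.C Z).baseChange W.K,
    theta C hW Z x = y) ?_ ?_ ?_ hy
  · intro j y hy
    refine ladic_ind C Q (p := fun y => ∃ x ∈ (Q.sys.C Z).baseChange W.K,
      theta C hW Z x = y) ?_ ?_ hy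
    · intro r a ha
      exact ⟨r ⊗ₜ[V.K] a, Submodule.tmul_mem_baseChange_of_mem _ (ClassPred.sp_of (Q := Q) ha),
        theta_tmul C hW r a⟩
    · rintro _ _ ⟨x, hx, rfl⟩ ⟨y, hy, rfl⟩
      exact ⟨x + y, Submodule.add_mem _ hx hy, map_add _ _ _⟩
  · exact ⟨0, Submodule.zero_mem _, map_zero _⟩
  · rintro _ _ ⟨x, hx, rfl⟩ ⟨y, hy, rfl⟩
    exact ⟨x + y, Submodule.add_mem _ hx hy, map_add _ _ _⟩

lemma map_theta (Z : 𝒱.Obj) : ((Q.sys.C Z).baseChange W.K).map (theta C hW Z).toLinearMap =
    (along C Q).sys.C Z := by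
  ext y
  constructor
  · rintro ⟨x, hx, rfl⟩
    exact theta_mem C Q hW hx
  · intro hy
    obtain ⟨x, hx, rfl⟩ := exists_theta C Q hW hy
    exact ⟨x, hx, rfl⟩

end Theta

/-- The dimension of the space of the classes. -/
theorem finrank_along (Z : 𝒱.Obj) : finrank W.K ((along C Q).sys.C Z) =
    finrank V.K (Q.sys.C Z) := by
  let _ : Algebra V.K W.K := C.σ.toAlgebra
  have hW : C.Compat W.K := fun r => rfl
  rw [← map_theta C Q hW Z, ← Pool.Agent.Y129.finrank_baseChange W.K (Q.sys.C Z)]
  exact LinearEquiv.finrank_map_eq (theta C hW Z) _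

/-- The intersection form is nondegenerate. -/
theorem nondeg_along {Z : 𝒱.Obj} (h : Q.sys.Nondeg Z) : (along C Q).sys.Nondeg Z := by
  let _ : Algebra V.K W.K := C.σ.toAlgebra
  have hW : C.Compat W.K := fun r => rfl
  intro y hy hyy
  obtain ⟨x, hx, rfl⟩ := exists_theta C Q hW hy
  have h1 : x = 0 := by
    refine base_nondeg (L := W.K) (V.tr Z) (fun a ha b => PH.even_comm (Q.sys.even ha) b) h hx
      fun y hy => ?_
    rw [← theta_tr C hW, theta_mul]
    exact hyy _ (theta_mem C Q hW hy)
  rw [h1, map_zero]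

end Pool.Agent.NH34.Cmp
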