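import Pool.Agent.NH34.Cmp.Defs
import Pool.Agent.NH34.Gal.Basic
import Pool.Agent.Y121.AHS.Conv
import Pool.Agent.Y121.AH.Span

/-!
# The comparison homomorphisms: basic properties
-/

open CategoryTheory AlgebraicGeometry TensorProduct

universe u w

namespace Pool.Agent.NH34.Cmp

open Module
open Pool.Agent.H914 Pool.Agent.H914.VarClass Pool.Agent.H914.VarClass.Obj
  Pool.Agent.H914.WeilCohomology Pool.Agent.Y121.AHS
open Pool.Agent.NH34.Lin Pool.Agent.NH34.Gal Pool.Agent.NH34.SS
open Pool.Agent.Y133.Half (ClassPred)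

variable {k : Type u} [Field k] {𝒱 : VarClass k} {ops : CycleOps 𝒱}

namespace ArtinComparison

variable {V W : WeilCohomology.{u, 0} ops} (C : ArtinComparison V W) {X Y Z : 𝒱.Obj}

lemma smul (r : V.K) (a : V.H X) : C.γ X (r • a) = C.σ r • C.γ X a := C.semi X r a

lemma tr' (a : V.H X) : W.tr X (C.γ X a) = C.σ (V.tr X a) := C.tr X a

lemma nat' (f : X ⟶ Y) (b : V.H Y) : C.γ X (V.map f b) = W.map f (C.γ Y b) := C.nat X Y f b

lemma gr' {i : ℕ} {a : V.H X} (ha : a ∈ V.gr X i) : C.γ X a ∈ W.gr X i := C.gr X i a ha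

/-- Induction on the linear combinations of the images. -/
lemma ind {p : W.H X → Prop} (h : ∀ (r : W.K) (a : V.H X), p (r • C.γ X a))
    (hadd : ∀ x y, p x → p y → p (x + y)) (x : W.H X) : p x := by
  have h0 : p 0 := by
    have := h 0 0
    rwa [zero_smul] at this
  have hx : x ∈ Submodule.span W.K (Set.range (C.γ X)) := by
    have := C.gen X
    unfold Generates at this
    rw [this]
    trivial
  have key : ∀ r : W.K, p (r • x) := by
    induction hx using Submodule.span_induction with
    | mem x hx => obtain ⟨a, rfl⟩ := hx; exact fun r => h r a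
    | zero => intro r; rw [smul_zero]; exact h0
    | add x y _ _ hx hy => intro r; rw [smul_add]; exact hadd _ _ (hx r) (hy r)
    | smul s x _ hx => intro r; rw [smul_smul]; exact hx _
  have := key 1
  rwa [one_smul] at this

lemma push' (f : X ⟶ Y) (a : V.H X) : C.γ Y (V.push f a) = W.push f (C.γ X a) := by
  apply W.tr_ext
  intro b
  refine C.ind (p := fun b => W.tr Y (C.γ Y (V.push f a) * b) = W.tr Y (W.push f (C.γ X a) * b))
    ?_ ?_ b
  · intro r b
    rw [mul_smul_comm, map_smul, mul_smul_comm, map_smul, ← map_mul, C.tr', V.tr_push, W.tr_push,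
      ← C.nat', ← map_mul, C.tr']
  · intro x y hx hy
    rw [mul_add, map_add, hx, hy, mul_add, map_add]

end ArtinComparison

section Hodge

variable {T : HodgeTheory ops} {W : WeilCohomology.{u, 0} ops} (C : ArtinComparison T.W W)
  {X Y : 𝒱.Obj} {j : ℕ}

/-- Induction for linear combinations of Hodge classes. -/
lemma hodgePart_ind {p : W.H X → Prop} (h : ∀ (r : W.K) (a : T.W.H X), IsHodge T X j a →
    p (r • C.γ X a)) (hadd : ∀ x y, p x → p y → p (x + y)) {x : W.H X}
    (hx : x ∈ hodgePart C X j) : p x := by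
  have h0 : p 0 := by
    have := h 0 0 (Pool.Agent.Y121.AH.IsHodge.zero (T := toH T))
    rwa [zero_smul] at this
  have key : ∀ r : W.K, p (r • x) := by
    unfold hodgePart spanImage at hx
    induction hx using Submodule.span_induction with
    | mem x hx => obtain ⟨a, ha, rfl⟩ := hx; exact fun r => h r a ha
    | zero => intro r; rw [smul_zero]; exact h0
    | add x y _ _ hx hy => intro r; rw [smul_add]; exact hadd _ _ (hx r) (hy r)
    | smul s x _ hx => intro r; rw [smul_smul]; exact hx _
  have := key 1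
  rwa [one_smul] at this

variable {C}

lemma mem_hodgePart {c : T.W.H X} (hc : IsHodge T X j c) : C.γ X c ∈ hodgePart C X j :=
  Submodule.subset_span ⟨c, hc, rfl⟩

variable (C)

/-- The linear combinations of Hodge classes. -/
def hodgePred : ClassPred W where
  P X j c := c ∈ hodgePart C X j
  gr {X j c} h := by
    refine hodgePart_ind C (p := fun c => c ∈ W.gr X (2 * j)) ?_ ?_ h
    · intro r a ha
      exact Submodule.smul_mem _ _ (C.gr' ha.1)
    · intro x y hx hy
      exact Submodule.add_mem _ hx hy
  zero := Submodule.zero_mem _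
  add := Submodule.add_mem _
  smul r _ ha := Submodule.smul_mem _ r ha
  cl {X j z} hz := by
    rw [← C.cyc]
    exact mem_hodgePart (Pool.Agent.Y121.AH.IsHodge.cl (T := toH T) hz)
  mul {X i j a b} ha hb := by
    refine hodgePart_ind C (p := fun a => a * b ∈ hodgePart C X (i + j)) ?_ ?_ ha
    · intro r a ha
      refine hodgePart_ind C (p := fun b => r • C.γ X a * b ∈ hodgePart C X (i + j)) ?_ ?_ hb
      · intro s b hb
        rw [smul_mul_smul_comm, ← map_mul]
        exact Submodule.smul_mem _ _ (mem_hodgePart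
          (Pool.Agent.Y121.AH.IsHodge.mul (T := toH T) ha hb))
      · intro x y hx hy
        rw [mul_add]
        exact Submodule.add_mem _ hx hy
    · intro x y hx hy
      rw [add_mul]
      exact Submodule.add_mem _ hx hy
  map {X Y} f {j a} ha := by
    refine hodgePart_ind C (p := fun a => W.map f a ∈ hodgePart C X j) ?_ ?_ ha
    · intro r a ha
      rw [map_smul, ← C.nat']
      exact Submodule.smul_mem _ _ (mem_hodgePart
        (Pool.Agent.Y121.AH.IsHodge.map (T := toH T) f ha))
    · intro x y hx hy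
      rw [map_add]
      exact Submodule.add_mem _ hx hy
  push {X Y} f {j l} hl {a} ha := by
    refine hodgePart_ind C (p := fun a => W.push f a ∈ hodgePart C Y l) ?_ ?_ ha
    · intro r a ha
      rw [map_smul, ← C.push']
      exact Submodule.smul_mem _ _ (mem_hodgePart
        (Pool.Agent.Y121.AH.IsHodge.push (T := toH T) f hl ha))
    · intro x y hx hy
      rw [map_add]
      exact Submodule.add_mem _ hx hy

/-- The conjunction of two properties. -/
def andPred {W : WeilCohomology.{u, 0} ops} (P Q : ClassPred W) : ClassPred W where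
  P X j c := P.P X j c ∧ Q.P X j c
  gr h := P.gr h.1
  zero := ⟨P.zero, Q.zero⟩
  add ha hb := ⟨P.add ha.1 hb.1, Q.add ha.2 hb.2⟩
  smul r _ ha := ⟨P.smul r ha.1, Q.smul r ha.2⟩
  cl hz := ⟨P.cl hz, Q.cl hz⟩
  mul ha hb := ⟨P.mul ha.1 hb.1, Q.mul ha.2 hb.2⟩
  map f _ _ ha := ⟨P.map f ha.1, Q.map f ha.2⟩
  push f _ _ hl _ ha := ⟨P.push f hl ha.1, Q.push f hl ha.2⟩

variable {Γ : Type w} [Group Γ] {G : ActionData W Γ}

/-- The classes which are both Tate classes and linear combinations of Hodge classes. -/
def commonPred (hG : IsGaloisTheory G) : ClassPred W := andPred (tatePred hG) (hodgePred C)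

lemma commonSpace_eq (hG : IsGaloisTheory G) (X : 𝒱.Obj) :
    commonSpace C G X = (commonPred C hG).sys.C X := rfl

lemma tateSpace_eq (hG : IsGaloisTheory G) (X : 𝒱.Obj) :
    tateSpace G X = (tatePred hG).sys.C X := rfl

end Hodge

end Pool.Agent.NH34.Cmp
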