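import Pool.Agent.H914R2.Weil
import Pool.Agent.NH34.Lin.HomDefs

/-!
# The comparison of the singular and the `ℓ`-adic cohomology: definitions
-/

open CategoryTheory AlgebraicGeometry

universe u

namespace Pool.Agent.NH34.Cmp

open Pool.Agent.H914 Pool.Agent.H914.VarClass Pool.Agent.H914.VarClass.Obj
  Pool.Agent.H914.WeilCohomology
open Pool.Agent.NH34.Lin

variable {k : Type u} [Field k] {𝒱 : VarClass k} {ops : CycleOps 𝒱}

/-- The formal properties of Artin's comparison isomorphism between the singular cohomology `V` with
rational coefficients and the `ℓ`-adic cohomology `W`: natural homomorphisms of graded rings which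
are compatible with the traces and with the classes of cycles, and which induce isomorphisms after the
extension of the coefficients to `ℚ_ℓ` (the image spans the `ℓ`-adic cohomology; injectivity follows
from Poincaré duality). -/
structure ArtinComparison (V W : WeilCohomology.{u, 0} ops) where
  /-- the inclusion of the coefficients -/
  σ : V.K →+* W.K
  /-- the homomorphisms -/
  γ : ∀ X : 𝒱.Obj, V.H X →+* W.H X
  cmp : ∀ X : 𝒱.Obj, IsComparison σ (γ X) (V.gr X) (W.gr X) (V.tr X) (W.tr X)
  nat : ∀ (X Y : 𝒱.Obj) (f : X ⟶ Y), Intertwines (γ X) (γ Y) (V.map f) (W.map f)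
  cyc : ∀ (X : 𝒱.Obj) (z : X.Cycles), γ X (V.cl X z) = W.cl X z

end Pool.Agent.NH34.Cmp
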