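import Pool.Agent.NH34.Cmp.Rat

/-!
# Rationality of systems of classes: the main theorem
-/

open CategoryTheory AlgebraicGeometry TensorProduct

universe u v w

namespace Pool.Agent.NH34.Cmp

open Module Module.End
open Pool.Agent.H914 Pool.Agent.H914.VarClass Pool.Agent.H914.VarClass.Obj
  Pool.Agent.H914.WeilCohomology Pool.Agent.Y121.AHS
open Pool.Agent.NH34.Lin Pool.Agent.NH34.Gal Pool.Agent.NH34.SS Pool.Agent.NH34.ZO
open Pool.Agent.Y133.Half Pool.Agent.Y133.Half.Sys Pool.Agent.R920.MT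
open Pool.Agent.Y121.AH (ratAlg psi)

variable {k : Type u} [Field k] {𝒱 : VarClass k} {ops : CycleOps 𝒱}
  {T : HodgeTheory ops} {W : WeilCohomology.{u, 0} ops} (C : ArtinComparison T.W W)
  {X Z : 𝒱.Obj} {Q0 : ClassPred T.W}

/-- The automorphisms of the field of complex numbers are linear over the coefficients. -/
noncomputable def autAlg (T : HodgeTheory ops) (g : ℂ ≃+* ℂ) : ℂ ≃ₐ[T.W.K] ℂ :=
  AlgEquiv.ofRingEquiv (f := g) fun r => by
    obtain ⟨q, rfl⟩ := T.rat r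
    rw [map_ratCast, map_ratCast]

lemma autAlg_apply (g : ℂ ≃+* ℂ) (z : ℂ) : autAlg T g z = g z := rfl

section

variable [Algebra W.K ℂ]

lemma not_negl_twist {T' : Sys W} (h : ¬ Negl (along C Q0).sys T' X) (g : ℂ ≃+* ℂ) :
    ¬ ∀ N : ℕ, ∃ n₀ : ℕ, ∀ n ≥ n₀, N * (Q0.sys.base ℂ).a (pw X n) ≤
      finrank (baseW T.W ℂ).K (((twist C (compat C) (autAlg T g)).sys (T'.base ℂ)).C (pw X n)) := by
  intro hcon
  refine h fun N => ?_
  obtain ⟨n₀, h0⟩ := hcon N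
  refine ⟨n₀, fun n hn => ?_⟩
  have h1 := h0 n hn
  have h2 := (twist C (compat C) (autAlg T g)).finrank_sys_le (T'.base ℂ) (pw X n)
  rw [a_base] at h1
  rw [a_along]
  have h3 : finrank (baseW W ℂ).K ((T'.base ℂ).C (pw X n)) = finrank W.K (T'.C (pw X n)) :=
    Sys.finrank_base (L := ℂ) (S := T') (pw X n)
  rw [h3] at h2
  exact h1.trans h2

lemma le_twist {T' : Sys W} (hST : ∀ Z, (along C Q0).sys.C Z ≤ T'.C Z) (g : ℂ ≃+* ℂ)
    (Z : 𝒱.Obj) : (Q0.sys.base ℂ).C Z ≤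
      ((twist C (compat C) (autAlg T g)).sys (T'.base ℂ)).C Z := by
  have h1 : ∀ s : ℂ ⊗[T.W.K] T.W.H Z, s ∈ (Q0.sys.C Z).baseChange ℂ →
      (s : (baseW T.W ℂ).H Z) ∈ ((twist C (compat C) (autAlg T g)).sys (T'.base ℂ)).C Z := by
    intro s hs
    refine base_induction (P := fun s : ℂ ⊗[T.W.K] T.W.H Z => (s : (baseW T.W ℂ).H Z) ∈
      ((twist C (compat C) (autAlg T g)).sys (T'.base ℂ)).C Z) ?_ ?_ ?_ hs
    · exact Submodule.zero_mem _
    · intro x y hx hy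
      exact Submodule.add_mem _ hx hy
    · intro l a ha
      have h2 : C.γ Z a ∈ T'.C Z := hST Z (incA C Q0 Z ⟨a, ha⟩).2
      have h3 : ((g.symm l ⊗ₜ[W.K] C.γ Z a : ℂ ⊗[W.K] W.H Z) : (baseW W ℂ).H Z) ∈
          (T'.base ℂ).C Z := Submodule.tmul_mem_baseChange_of_mem _ h2
      refine ⟨_, h3, ?_⟩
      change ds C (compat C) (autAlg T g) Z (g.symm l ⊗ₜ[W.K] C.γ Z a) = l ⊗ₜ[T.W.K] a
      have h4 : (g.symm l ⊗ₜ[W.K] C.γ Z a : ℂ ⊗[W.K] W.H Z) =
          C.Φ (compat C) Z (g.symm l ⊗ₜ[T.W.K] a) := (C.Φ_tmul (compat C) _ _).symm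
      rw [h4, ds_Φ, sg_tmul, autAlg_apply, RingEquiv.apply_symm_apply]
  exact fun s hs => h1 s hs

/-- **Rationality.** The rational coordinates of the classes of a system `T'`, in which a rational
system of classes which are fixed by a germ is not negligible, are fixed by powers of the germ. -/
theorem coord_fixed {T' : Sys W} (hST : ∀ Z, (along C Q0).sys.C Z ≤ T'.C Z)
    (h : ¬ Negl (along C Q0).sys T' X) (A : Germ (Q0.sys.base ℂ)) {q : ℕ} {x : W.H (pw X q)}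
    (hx : x ∈ T'.C (pw X q)) {ι : Type} {b : ι → W.K}
    (hb : LinearIndependent ℚ fun i => algebraMap W.K ℂ (b i)) {s : Finset ι}
    {f : ι → T.W.H (pw X q)} (hf : x = ∑ i ∈ s, b i • C.γ (pw X q) (f i)) {i : ι} (hi : i ∈ s) :
    ∃ n : ℕ, 0 < n ∧ (A.A (pw X q) ^ n)
      (((1 : ℂ) ⊗ₜ[T.W.K] f i : ℂ ⊗[T.W.K] T.W.H (pw X q)) : (baseW T.W ℂ).H (pw X q)) =
      (((1 : ℂ) ⊗ₜ[T.W.K] f i : ℂ ⊗[T.W.K] T.W.H (pw X q)) : (baseW T.W ℂ).H (pw X q)) := by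
  classical
  have halg : IsAlgClosed (baseW T.W ℂ).K := inferInstanceAs (IsAlgClosed ℂ)
  let U : Submodule (baseW T.W ℂ).K ((baseW T.W ℂ).H (pw X q)) := uni (A.A (pw X q)) 1
  let em : T.W.H (pw X q) → (baseW T.W ℂ).H (pw X q) := fun c =>
    ((1 : ℂ) ⊗ₜ[T.W.K] c : ℂ ⊗[T.W.K] T.W.H (pw X q))
  have hy : ∀ g : ℂ ≃+* ℂ, (∑ i ∈ s, (show (baseW T.W ℂ).K from g (algebraMap W.K ℂ (b i))) •
      em (f i)) ∈ U := by
    intro g
    have h1 : (((1 : ℂ) ⊗ₜ[W.K] x : ℂ ⊗[W.K] W.H (pw X q)) : (baseW W ℂ).H (pw X q)) ∈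
        (T'.base ℂ).C (pw X q) := Submodule.tmul_mem_baseChange_of_mem _ hx
    have h2 := (twist C (compat C) (autAlg T g)).mem_sys (T'.base ℂ) h1
    have h3 : (twist C (compat C) (autAlg T g)).F (pw X q)
        (((1 : ℂ) ⊗ₜ[W.K] x : ℂ ⊗[W.K] W.H (pw X q)) : (baseW W ℂ).H (pw X q)) =
        ∑ i ∈ s, (show (baseW T.W ℂ).K from g (algebraMap W.K ℂ (b i))) • em (f i) := by
      change ds C (compat C) (autAlg T g) (pw X q) ((1 : ℂ) ⊗ₜ[W.K] x) =
        ∑ i ∈ s, (g (algebraMap W.K ℂ (b i)) • ((1 : ℂ) ⊗ₜ[T.W.K] f i) :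
          ℂ ⊗[T.W.K] T.W.H (pw X q))
      rw [hf, TensorProduct.tmul_sum, map_sum]
      refine Finset.sum_congr rfl fun i _ => ?_
      have h4 : ((1 : ℂ) ⊗ₜ[W.K] (b i • C.γ (pw X q) (f i)) : ℂ ⊗[W.K] W.H (pw X q)) =
          C.Φ (compat C) (pw X q) (algebraMap W.K ℂ (b i) ⊗ₜ[T.W.K] f i) := by
        rw [C.Φ_tmul, TensorProduct.tmul_smul, TensorProduct.smul_tmul', Algebra.smul_def, mul_one]
      rw [h4, ds_Φ, sg_tmul, autAlg_apply, TensorProduct.smul_tmul', smul_eq_mul, mul_one]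
    rw [h3] at h2
    obtain ⟨n, hn, h5⟩ := A.main (le_twist C hST g) (not_negl_twist C h g) h2
    refine ⟨n, hn, ?_⟩
    rw [pow_one, LinearMap.sub_apply, End.one_apply, h5, sub_self]
  have key : em (f i) ∈ U := by
    by_contra hc
    obtain ⟨φ, hφ, hφp⟩ := Submodule.exists_dual_map_eq_bot_of_notMem hc inferInstance
    apply hφ
    refine Pool.Agent.Y121.AH.aut_indep hb _ s rfl (fun i => φ (em (f i))) ?_ i hi
    intro g
    have h1 : φ (∑ i ∈ s, (show (baseW T.W ℂ).K from g (algebraMap W.K ℂ (b i))) •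
        em (f i)) = 0 := by
      have h2 := Submodule.mem_map_of_mem (f := φ) (hy g)
      rw [hφp, Submodule.mem_bot] at h2
      exact h2
    rw [map_sum] at h1
    refine Eq.trans (Finset.sum_congr rfl fun i _ => ?_) h1
    rw [map_smul, smul_eq_mul]
    exact mul_comm (φ (em (f i)) : ℂ) (g (algebraMap W.K ℂ (b i)))
  obtain ⟨n, hn, h1⟩ := key
  rw [pow_one, LinearMap.sub_apply, End.one_apply, sub_eq_zero] at h1
  exact ⟨n, hn, h1⟩

end

end Pool.Agent.NH34.Cmp
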