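import Pool.Agent.NH34.Cmp.CmpDefs
import Pool.Agent.NH34.Gal.CDefs
import Pool.Agent.NH34.SS.RDefs
import Pool.Agent.Y121.AHS.Defs

/-!
# The comparison of the singular and the `ℓ`-adic cohomology: definitions for the proofs
-/

open CategoryTheory AlgebraicGeometry

universe u w

namespace Pool.Agent.NH34.Cmp

open Pool.Agent.H914 Pool.Agent.H914.VarClass Pool.Agent.H914.VarClass.Obj
  Pool.Agent.H914.WeilCohomology Pool.Agent.Y121.AHS
open Pool.Agent.NH34.Lin Pool.Agent.NH34.Gal Pool.Agent.NH34.SS

variable {k : Type u} [Field k] {𝒱 : VarClass k} {ops : CycleOps 𝒱}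

namespace ArtinComparison

variable {V W : WeilCohomology.{u, 0} ops} (C : ArtinComparison V W)

lemma semi (X : 𝒱.Obj) : IsSemilinear C.σ (C.γ X) := (C.cmp X).semi

lemma gr (X : 𝒱.Obj) : PreservesGrading (C.γ X) (V.gr X) (W.gr X) := (C.cmp X).grading

lemma tr (X : 𝒱.Obj) : PreservesForm C.σ (C.γ X) (V.tr X) (W.tr X) := (C.cmp X).form

lemma gen (X : 𝒱.Obj) : Generates W.K (C.γ X) := (C.cmp X).gen

end ArtinComparison

variable {T : HodgeTheory ops} {W : WeilCohomology.{u, 0} ops} {Γ : Type w} [Group Γ]

/-- The linear combinations, with coefficients in `ℚ_ℓ`, of the Hodge classes of degree `2 j` on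
`X`. -/
def hodgePart (C : ArtinComparison T.W W) (X : 𝒱.Obj) (j : ℕ) : Submodule W.K (W.H X) :=
  spanImage W.K (C.γ X) (IsHodge T X j)

/-- The space spanned by the classes on `X` which are both Tate classes and linear combinations of
Hodge classes. -/
def commonSpace (C : ArtinComparison T.W W) (G : ActionData W Γ) (X : 𝒱.Obj) :
    Submodule W.K (W.H X) :=
  Submodule.span W.K {c | ∃ j, IsTate G X j c ∧ c ∈ hodgePart C X j}

/-- The rank of the intersection form on the space spanned by the classes on `X` which are both Tate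
classes and linear combinations of Hodge classes. -/
noncomputable def commonRank (C : ArtinComparison T.W W) (G : ActionData W Γ) (X : 𝒱.Obj) : ℕ :=
  rankOn (W.tr X) (commonSpace C G X)

/-- All Hodge classes on `X` are Tate classes. -/
def HodgeIsTate (C : ArtinComparison T.W W) (G : ActionData W Γ) (X : 𝒱.Obj) : Prop :=
  ∀ j c, IsHodge T X j c → IsTate G X j (C.γ X c)

/-- All Tate classes on `X` are linear combinations of Hodge classes. -/
def TateIsHodge (C : ArtinComparison T.W W) (G : ActionData W Γ) (X : 𝒱.Obj) : Prop :=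
  ∀ j c, IsTate G X j c → c ∈ hodgePart C X j

end Pool.Agent.NH34.Cmp
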