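import Mathlib

/-!
# Embeddings of the `ℓ`-adic numbers into the complex numbers
-/

namespace Pool.Agent.NH34.Cmp

open Cardinal

variable (ℓ : ℕ) [Fact ℓ.Prime]

lemma mk_padic : #ℚ_[ℓ] = 𝔠 := by
  apply le_antisymm
  · have h1 : #ℚ_[ℓ] ≤ #(PadicSeq ℓ) := Cardinal.mk_quotient_le
    have h2 : #(PadicSeq ℓ) ≤ #(ℕ → ℚ) := Cardinal.mk_le_of_injective Subtype.val_injective
    have h3 : #(ℕ → ℚ) = 𝔠 := by
      rw [← Cardinal.power_def]
      simp
    exact h1.trans (h2.trans h3.le)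
  · exact continuum_le_cardinal_of_nontriviallyNormedField ℚ_[ℓ]

/-- There is an embedding of the `ℓ`-adic numbers into the complex numbers. -/
theorem exists_emb : Nonempty (ℚ_[ℓ] →+* ℂ) := by
  have h1 : #(AlgebraicClosure ℚ_[ℓ]) = 𝔠 := by
    apply le_antisymm
    · refine (Algebra.IsAlgebraic.cardinalMk_le_max ℚ_[ℓ] (AlgebraicClosure ℚ_[ℓ])).trans ?_
      rw [mk_padic]
      exact max_le le_rfl aleph0_le_continuum
    · rw [← mk_padic ℓ]
      exact Cardinal.mk_le_of_injective (algebraMap ℚ_[ℓ] (AlgebraicClosure ℚ_[ℓ])).injective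
  have h2 : Nonempty (AlgebraicClosure ℚ_[ℓ] ≃ ℂ) := by
    rw [← Cardinal.eq, h1, Cardinal.mk_complex]
  have : CharZero (AlgebraicClosure ℚ_[ℓ]) :=
    charZero_of_injective_algebraMap (algebraMap ℚ_[ℓ] (AlgebraicClosure ℚ_[ℓ])).injective
  obtain ⟨e⟩ := IsAlgClosed.ringEquiv_of_equiv_of_charZero (K := AlgebraicClosure ℚ_[ℓ])
    (L := ℂ) (by rw [h1]; exact aleph0_lt_continuum) h2
  exact ⟨e.toRingHom.comp (algebraMap ℚ_[ℓ] (AlgebraicClosure ℚ_[ℓ]))⟩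

end Pool.Agent.NH34.Cmp
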