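import Pool.Agent.NH34.Cmp.MDefs

/-!
# Hodge classes which are Tate classes for all primes: definitions
-/

open CategoryTheory AlgebraicGeometry

universe u v w

namespace Pool.Agent.NH34.Law

open Pool.Agent.H914 Pool.Agent.H914.VarClass Pool.Agent.H914.VarClass.Obj
  Pool.Agent.H914.WeilCohomology
open Pool.Agent.NH34.Lin Pool.Agent.NH34.Gal Pool.Agent.NH34.Hdg Pool.Agent.NH34.Cmp
  Pool.Agent.NH34.Mot

variable {k : Type u} [Field k] {𝒱 : VarClass k} {ops : CycleOps 𝒱}
  {T : HodgeTheory ops} {ι : Type v} {W : ι → WeilCohomology.{u, 0} ops} {Γ : Type w} [Group Γ]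

/-- The rational class `c` of degree `2 j` on `X` is a Hodge class, and it is a Tate class in the
`ℓ`-adic cohomology `W i` for all indices `i`. -/
def IsAbsolute (C : ∀ i, ArtinComparison T.W (W i)) (G : ∀ i, ActionData (W i) Γ) (X : 𝒱.Obj)
    (j : ℕ) (c : T.W.H X) : Prop :=
  IsHodge T X j c ∧ ∀ i, IsTate (G i) X j ((C i).γ X c)

/-- The number of linearly independent Hodge classes on `X` which are Tate classes for all
indices. -/
noncomputable def absNum (C : ∀ i, ArtinComparison T.W (W i)) (G : ∀ i, ActionData (W i) Γ)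
    (X : 𝒱.Obj) : ℕ := numOf T.W.K (IsAbsolute C G X)

/-- All Hodge classes on `X` are Tate classes for all indices. -/
def HodgeIsAbsolute (C : ∀ i, ArtinComparison T.W (W i)) (G : ∀ i, ActionData (W i) Γ)
    (X : 𝒱.Obj) : Prop :=
  ∀ j c, IsHodge T X j c → IsAbsolute C G X j c

/-- All Tate classes for the index `i` on `X` are linear combinations of rational Hodge classes which
are Tate classes for all indices. -/
def TateIsAbsolute (C : ∀ i, ArtinComparison T.W (W i)) (G : ∀ i, ActionData (W i) Γ) (i : ι)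
    (X : 𝒱.Obj) : Prop :=
  AllCombs (W i).K ((C i).γ X) (IsAbsolute C G X) (IsTate (G i) X)

/-- All Hodge classes on `X` which are Tate classes for all indices are motivated. -/
def AbsoluteIsMotivated (C : ∀ i, ArtinComparison T.W (W i)) (G : ∀ i, ActionData (W i) Γ)
    (X : 𝒱.Obj) : Prop :=
  ∀ j c, IsAbsolute C G X j c → IsMotivated T.W X j c

end Pool.Agent.NH34.Law
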