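import Pool.Agent.NH34.Cmp.Phi
import Pool.Agent.NH34.ZO.Base

/-!
# Systems of classes with many Hodge classes consist of Hodge classes
-/

open CategoryTheory AlgebraicGeometry TensorProduct

universe u w

namespace Pool.Agent.NH34.Cmp

open Module
open Pool.Agent.H914 Pool.Agent.H914.VarClass Pool.Agent.H914.VarClass.Obj
  Pool.Agent.H914.WeilCohomology Pool.Agent.Y121.AHS
open Pool.Agent.NH34.Lin Pool.Agent.NH34.Gal Pool.Agent.NH34.SS Pool.Agent.NH34.ZO
open Pool.Agent.Y133.Half Pool.Agent.Y133.Half.Sys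
open Pool.Agent.Y121.AH (gop CW em psi ratAlg kap)

variable {k : Type u} [Field k] {𝒱 : VarClass k} {ops : CycleOps 𝒱}
  {T : HodgeTheory ops} {W : WeilCohomology.{u, 0} ops} (C : ArtinComparison T.W W)
  {X Y Z : 𝒱.Obj}

section Gop

variable {T' : Pool.Agent.Y121.AH.HodgeTheory ops}

lemma gop_pow_pq {p q : ℤ} {x : (CW T').H X} (hx : x ∈ T'.pq X p q) (n : ℕ) :
    (gop T' X ^ n) x = ((2 : (CW T').K) ^ (p - q)) ^ n • x := by
  induction n with
  | zero => rw [pow_zero, pow_zero, one_smul]; rfl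
  | succ n ih =>
    rw [pow_succ', Module.End.mul_apply, ih, map_smul, Pool.Agent.Y121.AH.gop_pq hx, smul_smul,
      pow_succ]

lemma gop_inj : Function.Injective (gop T' X) := by
  classical
  set N : Module.End (CW T').K ((CW T').H X) := Pool.Agent.Y121.AH.dia
    (Pool.Agent.Y121.AH.isInternal T' X) fun r => ((2 : (CW T').K) ^ (r.1 - r.2))⁻¹ with hN
  have h1 : ∀ x, N (gop T' X x) = x := by
    intro x
    refine Pool.Agent.Y121.AH.pq_ind T' (p := fun x => N (gop T' X x) = x) ?_ ?_ ?_ x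
    · intro a b x hx
      rw [Pool.Agent.Y121.AH.gop_pq hx, map_smul, hN, Pool.Agent.Y121.AH.dia_apply
        (Pool.Agent.Y121.AH.isInternal T' X) _ (i := (a, b)) hx, smul_smul,
        mul_inv_cancel₀ (zpow_ne_zero _ Pool.Agent.Y121.AH.two_ne), one_smul]
    · intro a b ha hb
      rw [map_add, map_add, ha, hb]
    · simp
  exact Function.LeftInverse.injective h1

/-- A class of even degree fixed by a power of the operator is of type `(j, j)`. -/
lemma pq_of_fix_pow {j n : ℕ} (hn : 0 < n) {x : (CW T').H X}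
    (hx : x ∈ ⨆ r : {r : ℤ × ℤ // r.1 + r.2 = (2 * j : ℕ)}, T'.pq X r.1.1 r.1.2)
    (h : (gop T' X ^ n) x = x) : x ∈ T'.pq X j j := by
  classical
  set N : Module.End (CW T').K ((CW T').H X) := Pool.Agent.Y121.AH.dia
    (Pool.Agent.Y121.AH.isInternal T' X) fun r =>
    if r.1 = r.2 then 0 else (((2 : (CW T').K) ^ (r.1 - r.2)) ^ n - 1)⁻¹ with hN
  set E : Module.End (CW T').K ((CW T').H X) := Pool.Agent.Y121.AH.dia
    (Pool.Agent.Y121.AH.isInternal T' X) fun r => if r.1 = r.2 then 1 else 0 with hE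
  have h1 : ∀ x, N ((gop T' X ^ n) x) - N x + E x = x := by
    intro x
    refine Pool.Agent.Y121.AH.pq_ind T' (p := fun x => N ((gop T' X ^ n) x) - N x + E x = x)
      ?_ ?_ ?_ x
    · intro a b x hx
      rw [gop_pow_pq hx, map_smul, hN, hE, Pool.Agent.Y121.AH.dia_apply
        (Pool.Agent.Y121.AH.isInternal T' X) _ (i := (a, b)) hx,
        Pool.Agent.Y121.AH.dia_apply (Pool.Agent.Y121.AH.isInternal T' X) _ (i := (a, b)) hx]
      by_cases hab : a = b
      · simp [hab]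
      · simp only [if_neg hab, zero_smul, add_zero]
        have h2 : ((2 : (CW T').K) ^ (a - b)) ^ n - 1 ≠ 0 := by
          rw [sub_ne_zero]
          intro h3
          rw [← zpow_natCast, ← zpow_mul] at h3
          have h4 := Pool.Agent.Y121.AH.two_zpow_ne h3
          rcases mul_eq_zero.1 h4 with h5 | h5
          · exact hab (sub_eq_zero.1 h5)
          · omega
        rw [smul_smul, ← sub_smul, ← sub_one_mul, mul_inv_cancel₀ h2, one_smul]
    · intro a b ha hb
      calc N ((gop T' X ^ n) (a + b)) - N (a + b) + E (a + b)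
          = (N ((gop T' X ^ n) a) - N a + E a) + (N ((gop T' X ^ n) b) - N b + E b) := by
            simp only [map_add]; abel
        _ = a + b := by rw [ha, hb]
    · simp
  have h2 := h1 x
  rw [h, sub_self, zero_add] at h2
  rw [← h2]
  refine Submodule.iSup_induction
    (fun r : {r : ℤ × ℤ // r.1 + r.2 = (2 * j : ℕ)} => T'.pq X r.1.1 r.1.2)
    (motive := fun x => E x ∈ T'.pq X j j) hx ?_ ?_ ?_
  · rintro ⟨⟨a, b⟩, hr⟩ x hx
    rw [hE, Pool.Agent.Y121.AH.dia_apply (Pool.Agent.Y121.AH.isInternal T' X) _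
      (i := (a, b)) hx]
    by_cases hab : a = b
    · subst hab
      have h3 : a = j := by
        have h4 : a + a = ((2 * j : ℕ) : ℤ) := hr
        push_cast at h4
        omega
      subst h3
      simpa using hx
    · simp [hab]
  · rw [map_zero]; exact Submodule.zero_mem _
  · intro x y hx hy; rw [map_add]; exact Submodule.add_mem _ hx hy

end Gop

section Germ

variable [Algebra W.K ℂ]

omit T in
lemma compat {T : HodgeTheory ops} (C : ArtinComparison T.W W) : C.Compat ℂ := by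
  intro r
  obtain ⟨q, rfl⟩ := T.rat r
  rw [map_ratCast, map_ratCast, map_ratCast]

/-- The operator `2 ^ (p - q)`, as an operator on a module over the complex numbers. -/
noncomputable def gopC (T : HodgeTheory ops) (Z : 𝒱.Obj) :
    Module.End ℂ (ℂ ⊗[T.W.K] T.W.H Z) := gop (toH T) Z

/-- The operator `2 ^ (p - q)` on the `ℓ`-adic cohomology with complex coefficients. -/
noncomputable def gopW (Z : 𝒱.Obj) : Module.End ℂ (ℂ ⊗[W.K] W.H Z) :=
  (C.Φe (compat C) Z).toLinearMap ∘ₗ gopC T Z ∘ₗ (C.Φe (compat C) Z).symm.toLinearMap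

lemma gopW_Φ (x : ℂ ⊗[T.W.K] T.W.H Z) :
    gopW C Z (C.Φ (compat C) Z x) = C.Φ (compat C) Z (gopC T Z x) := by
  change C.Φ (compat C) Z (gopC T Z ((C.Φe (compat C) Z).symm (C.Φe (compat C) Z x))) = _
  rw [LinearEquiv.symm_apply_apply]

lemma gopW_pow_Φ (n : ℕ) (x : ℂ ⊗[T.W.K] T.W.H Z) :
    (gopW C Z ^ n) (C.Φ (compat C) Z x) = C.Φ (compat C) Z ((gopC T Z ^ n) x) := by
  induction n with
  | zero => rfl
  | succ n ih => rw [pow_succ', pow_succ', Module.End.mul_apply, Module.End.mul_apply, ih, gopW_Φ]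

/-- The germ of the operator `2 ^ (p - q)`. -/
noncomputable def hodgeGerm {S : Sys W} (hS : ∀ Z, S.C Z ≤ (hodgePred C).sys.C Z) :
    Germ (S.base ℂ) where
  A Z := gopW C Z
  w _ := 1
  w_pos _ := one_pos
  inj Z := by
    have h : Function.Injective (gopC T Z) := gop_inj (T' := toH T) (X := Z)
    exact (C.Φe (compat C) Z).injective.comp (h.comp (C.Φe (compat C) Z).symm.injective)
  mul Z a b := by
    obtain ⟨x, rfl⟩ := C.Φ_surj (compat C) a
    obtain ⟨y, rfl⟩ := C.Φ_surj (compat C) b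
    change gopW C Z (C.Φ (compat C) Z x * C.Φ (compat C) Z y) =
      gopW C Z (C.Φ (compat C) Z x) * gopW C Z (C.Φ (compat C) Z y)
    rw [← C.Φ_mul, gopW_Φ, gopW_Φ, gopW_Φ, ← C.Φ_mul]
    exact congrArg (C.Φ (compat C) Z) (Pool.Agent.Y121.AH.gop_mul (T := toH T) x y)
  map {Y Z} f := by
    refine ⟨1, one_pos, fun b => ?_⟩
    obtain ⟨y, rfl⟩ := C.Φ_surj (compat C) b
    change gopW C Y (mapBase ℂ (W.map f) (C.Φ (compat C) Z y)) =
      mapBase ℂ (W.map f) (gopW C Z (C.Φ (compat C) Z y))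
    rw [← C.Φ_map, gopW_Φ, gopW_Φ, ← C.Φ_map]
    exact congrArg (C.Φ (compat C) Y) (Pool.Agent.Y121.AH.gop_map (T := toH T) f y)
  tr Z a := by
    obtain ⟨x, rfl⟩ := C.Φ_surj (compat C) a
    change formBase ℂ (W.tr Z) (gopW C Z (C.Φ (compat C) Z x)) =
      formBase ℂ (W.tr Z) (C.Φ (compat C) Z x)
    rw [gopW_Φ, C.Φ_tr, C.Φ_tr]
    exact Pool.Agent.Y121.AH.tr_gop (T := toH T) x
  fix Z s hs := by
    refine ⟨1, one_pos, ?_⟩
    have hs' : s ∈ (S.C Z).baseChange ℂ := hs
    refine base_induction (P := fun s : ℂ ⊗[W.K] W.H Z => (gopW C Z ^ 1) s = s) ?_ ?_ ?_ hs'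
    · rw [map_zero]
    · intro x y hx hy
      rw [map_add, hx, hy]
    · intro l a ha
      rw [pow_one]
      refine ClassPred.sp_ind (Q := hodgePred C)
        (q := fun a => gopW C Z (l ⊗ₜ[W.K] a) = l ⊗ₜ[W.K] a) ?_ ?_ ?_ (hS Z ha)
      · intro j a ha
        refine hodgePart_ind C (p := fun a => gopW C Z (l ⊗ₜ[W.K] a) = l ⊗ₜ[W.K] a) ?_ ?_ ha
        · intro r a ha
          have h1 : (l ⊗ₜ[W.K] (r • C.γ Z a) : ℂ ⊗[W.K] W.H Z) =
              (algebraMap W.K ℂ r * l) • C.Φ (compat C) Z ((1 : ℂ) ⊗ₜ[T.W.K] a) := by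
            rw [C.Φ_tmul, TensorProduct.tmul_smul, TensorProduct.smul_tmul',
              TensorProduct.smul_tmul', smul_eq_mul, mul_one, Algebra.smul_def]
          have h2 : gopC T Z ((1 : ℂ) ⊗ₜ[T.W.K] a) = (1 : ℂ) ⊗ₜ[T.W.K] a :=
            Pool.Agent.Y121.AH.gop_hodge (T := toH T) ha
          rw [h1, map_smul, gopW_Φ, h2]
        · intro x y hx hy
          rw [TensorProduct.tmul_add, map_add, hx, hy]
      · rw [TensorProduct.tmul_zero, map_zero]
      · intro x y hx hy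
        rw [TensorProduct.tmul_add, map_add, hx, hy]

end Germ

/-- The conversion of the embeddings of the coefficients. -/
noncomputable def nu (W : WeilCohomology.{u, 0} ops) (M : Type) [Field M] [Algebra W.K M]
    (X : 𝒱.Obj) : W.K ⊗[W.K] W.H X →ₐ[W.K] M ⊗[W.K] W.H X :=
  Algebra.TensorProduct.map (Algebra.ofId W.K M) (AlgHom.id W.K (W.H X))

lemma nu_tmul {M : Type} [Field M] [Algebra W.K M] (r : W.K) (b : W.H X) :
    nu W M X (r ⊗ₜ[W.K] b) = algebraMap W.K M r ⊗ₜ[W.K] b := by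
  rw [nu, Algebra.TensorProduct.map_tmul]
  rfl

section Desc

variable [Algebra T.W.K W.K]

/-- Homogeneous classes are linear combinations of images of homogeneous classes. -/
lemma exists_repr (hW : C.Compat W.K) {i : ℕ} {x : W.H X} (hx : x ∈ W.gr X i) :
    ∃ w ∈ (T.W.gr X i).baseChange W.K, C.Φ hW X w = (1 : W.K) ⊗ₜ[W.K] x := by
  have hproj : ∀ a : T.W.H X, C.γ X (H914.proj (T.W.isInternal X) i a) =
      H914.proj (W.isInternal X) i (C.γ X a) := by
    intro a
    refine gr_induction (T.W.isInternal X) (p := fun a => C.γ X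
      (H914.proj (T.W.isInternal X) i a) = H914.proj (W.isInternal X) i (C.γ X a)) ?_ ?_ a
    · intro l a ha
      by_cases h : l = i
      · subst h
        rw [proj_same _ ha, proj_same _ (C.gr' ha)]
      · rw [proj_ne _ ha h, proj_ne _ (C.gr' ha) h, map_zero]
    · intro a b ha hb
      rw [map_add, map_add, map_add, map_add, ha, hb]
  have key : ∀ x : W.H X, ∃ w ∈ (T.W.gr X i).baseChange W.K,
      C.Φ hW X w = (1 : W.K) ⊗ₜ[W.K] H914.proj (W.isInternal X) i x := by
    intro x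
    refine C.ind (p := fun x => ∃ w ∈ (T.W.gr X i).baseChange W.K,
      C.Φ hW X w = (1 : W.K) ⊗ₜ[W.K] H914.proj (W.isInternal X) i x) ?_ ?_ x
    · intro r a
      refine ⟨r ⊗ₜ[T.W.K] H914.proj (T.W.isInternal X) i a,
        Submodule.tmul_mem_baseChange_of_mem _ (proj_mem _ _ _), ?_⟩
      rw [C.Φ_tmul, hproj, map_smul, TensorProduct.tmul_smul, TensorProduct.smul_tmul',
        smul_eq_mul, mul_one]
    · rintro x y ⟨a, ha, ha'⟩ ⟨b, hb, hb'⟩
      exact ⟨a + b, Submodule.add_mem _ ha hb, by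
        rw [map_add, ha', hb', map_add, TensorProduct.tmul_add]⟩
  obtain ⟨w, hw, h⟩ := key x
  rw [proj_same _ hx] at h
  exact ⟨w, hw, h⟩

/-- The conversion of the coefficients. -/
noncomputable def psiC (T : HodgeTheory ops) {L : Type} [Field L] [Algebra T.W.K L] (τ : L →+* ℂ)
    (X : 𝒱.Obj) : L ⊗[T.W.K] T.W.H X →+* ℂ ⊗[T.W.K] T.W.H X :=
  psi (toH T).W (ratAlg (toH T) τ) X

lemma psiC_tmul {L : Type} [Field L] [Algebra T.W.K L] (τ : L →+* ℂ) (l : L) (a : T.W.H X) :
    psiC T τ X (l ⊗ₜ[T.W.K] a) = τ l ⊗ₜ[T.W.K] a :=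
  Pool.Agent.Y121.AH.psi_tmul (W := (toH T).W) (ratAlg (toH T) τ) l a

lemma Φ_psiC (hW : C.Compat W.K) [Algebra W.K ℂ] (w : W.K ⊗[T.W.K] T.W.H X) :
    C.Φ (compat C) X (psiC T (algebraMap W.K ℂ) X w) = nu W ℂ X (C.Φ hW X w) := by
  refine tmul_induction (P := fun w => C.Φ (compat C) X (psiC T (algebraMap W.K ℂ) X w) =
    nu W ℂ X (C.Φ hW X w)) ?_ ?_ ?_ w
  · simp only [map_zero]
  · intro x y hx hy
    simp only [map_add, hx, hy]
  · intro l a
    rw [psiC_tmul, C.Φ_tmul, C.Φ_tmul, nu_tmul]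

end Desc

/-- **Systems of classes.** Let `S ≤ T'` be systems of classes. If the classes in `S` are linear
combinations of Hodge classes and the rank of `S` is not negligible in comparison with the dimension
of `T'` on the powers of `X` then the homogeneous classes in `T'` are linear combinations of Hodge
classes on all powers of `X`. -/
theorem mem_hodgePart_of_not_negl (τ : W.K →+* ℂ) {S T' : Sys W} (hST : ∀ X, S.C X ≤ T'.C X)
    (hS : ∀ Z, S.C Z ≤ (hodgePred C).sys.C Z) (h : ¬ Negl S T' X) {q j : ℕ} {x : W.H (pw X q)}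
    (hx : x ∈ T'.C (pw X q)) (hxj : x ∈ W.gr (pw X q) (2 * j)) : x ∈ hodgePart C (pw X q) j := by
  let _ : Algebra T.W.K W.K := C.σ.toAlgebra
  have hW : C.Compat W.K := fun r => rfl
  obtain ⟨w, hw, hwx⟩ := exists_repr C hW hxj
  have key : ∀ g : ℂ ≃+* ℂ, psi (toH T).W (ratAlg (toH T) (g.toRingHom.comp τ)) (pw X q) w ∈
      (toH T).pq (pw X q) j j := by
    intro g
    let _ : Algebra W.K ℂ := (g.toRingHom.comp τ).toAlgebra
    obtain ⟨n, hn, h1⟩ := fixed_of_germ ℂ hST h (hodgeGerm C hS) hx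
    have h2 : (gopW C (pw X q) ^ n) ((1 : ℂ) ⊗ₜ[W.K] x) = (1 : ℂ) ⊗ₜ[W.K] x := h1
    have h3 : C.Φ (compat C) (pw X q) (psiC T (algebraMap W.K ℂ) (pw X q) w) =
        (1 : ℂ) ⊗ₜ[W.K] x := by
      rw [Φ_psiC C hW, hwx, nu_tmul, map_one]
    rw [← h3, gopW_pow_Φ] at h2
    have h4 := C.Φ_inj (compat C) h2
    refine pq_of_fix_pow (T' := toH T) hn ?_ h4
    have h5 : psi (toH T).W (ratAlg (toH T) (g.toRingHom.comp τ)) (pw X q) w ∈
        (CW (toH T)).gr (pw X q) (2 * j) := Pool.Agent.Y121.AH.psi_gr _ hw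
    have h6 := T.span (pw X q) (2 * j)
    have h7 : (psi (toH T).W (ratAlg (toH T) (g.toRingHom.comp τ)) (pw X q) w :
      HL T.W ℂ (pw X q)) ∈ grL T.W ℂ (pw X q) (2 * j) := h5
    rw [h6] at h7
    exact h7
  have h1 : ∀ w : W.K ⊗[T.W.K] T.W.H (pw X q), w ∈ Submodule.span W.K
      {x : W.K ⊗[T.W.K] T.W.H (pw X q) | ∃ c', IsHodge T (pw X q) j c' ∧
        (1 : W.K) ⊗ₜ[T.W.K] c' = x} →
      TensorProduct.lid W.K (W.H (pw X q)) (C.Φ hW (pw X q) w) ∈ hodgePart C (pw X q) j := by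
    intro w hw
    induction hw using Submodule.span_induction with
    | mem x hx =>
      obtain ⟨c, hc, rfl⟩ := hx
      rw [C.Φ_tmul, TensorProduct.lid_tmul, one_smul]
      exact mem_hodgePart hc
    | zero => rw [map_zero, map_zero]; exact Submodule.zero_mem _
    | add x y _ _ hx hy => rw [map_add, map_add]; exact Submodule.add_mem _ hx hy
    | smul r x _ hx => rw [C.Φ_smul, map_smul]; exact Submodule.smul_mem _ _ hx
  have h2 := h1 w (Pool.Agent.Y121.AH.mem_span_hodge (T' := toH T) (L := W.K) τ key)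
  rw [hwx, TensorProduct.lid_tmul, one_smul] at h2
  exact h2

end Pool.Agent.NH34.Cmp
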