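import Pool.Agent.NH34.Cmp.Lef
import Pool.Agent.NH34.Cmp.HodgeLaw
import Pool.Agent.NH34.Cmp.Emb
import Pool.Agent.NH34.ZO.TateLaw
import Pool.Agent.NH34.SS.Dich

/-!
# The zero-one law for Hodge classes and Tate classes
-/

open CategoryTheory AlgebraicGeometry TensorProduct

universe u w

namespace Pool.Agent.NH34.Cmp

open Module
open Pool.Agent.H914 Pool.Agent.H914.VarClass Pool.Agent.H914.VarClass.Obj
  Pool.Agent.H914.WeilCohomology Pool.Agent.Y121.AHS
open Pool.Agent.NH34.Lin Pool.Agent.NH34.Gal Pool.Agent.NH34.SS Pool.Agent.NH34.ZO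
open Pool.Agent.Y133.Half Pool.Agent.R920.MT

variable {k : Type u} [Field k] {𝒱 : VarClass k} {ops : CycleOps 𝒱}
  {T : HodgeTheory ops} {W : WeilCohomology.{u, 0} ops} {C : ArtinComparison T.W W}
  {X Y Z : 𝒱.Obj} {j : ℕ} {Γ : Type w} [Group Γ] {G : ActionData W Γ}

lemma hodgePred_eq : hodgePred C = along C (Pool.Agent.Y121.AH.hodgePred (toH T)) := rfl

lemma finrank_hodge (Z : 𝒱.Obj) : finrank W.K ((hodgePred C).sys.C Z) = hodgeDim T Z :=
  finrank_along C (Pool.Agent.Y121.AH.hodgePred (toH T)) Z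

lemma commonRank_eq (hG : IsGaloisTheory G) (Z : 𝒱.Obj) :
    (commonPred C hG).sys.a Z = commonRank C G Z := by
  have h1 := (commonPred C hG).sys.a_add_num Z
  have h2 : (commonPred C hG).sys.Num Z = nullOf (W.tr Z) (commonSpace C G Z) := by
    ext c
    constructor
    · rintro ⟨h1, h2⟩; exact ⟨h1, h2⟩
    · rintro ⟨h1, h2⟩; exact ⟨h1, h2⟩
  rw [h2, ← commonSpace_eq C hG] at h1
  change _ = finrank W.K (commonSpace C G Z) - finrank W.K (nullOf (W.tr Z) (commonSpace C G Z))
  omega

lemma negl_iff {S : Sys W} {T' : Sys W} {r t : ℕ → ℕ} (hr : ∀ n, S.a (pw X n) = r n)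
    (ht : ∀ n, finrank W.K (T'.C (pw X n)) = t n) : Negl S T' X ↔ Negligible r t := by
  unfold Negl Negligible
  simp only [hr, ht]

lemma common_le_hodge (hG : IsGaloisTheory G) (Z : 𝒱.Obj) :
    (commonPred C hG).sys.C Z ≤ (hodgePred C).sys.C Z :=
  Submodule.span_mono fun _ ⟨j, hj⟩ => ⟨j, hj.2⟩

lemma common_le_tate (hG : IsGaloisTheory G) (Z : 𝒱.Obj) :
    (commonPred C hG).sys.C Z ≤ (tatePred hG).sys.C Z :=
  Submodule.span_mono fun _ ⟨j, hj⟩ => ⟨j, hj.1⟩

/-- The number of the Hodge classes which are Tate classes is at most the common rank. -/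
theorem hodgeTateDim_le (hG : IsGaloisTheory G) (Z : 𝒱.Obj) :
    hodgeTateDim C G Z ≤ commonRank C G Z := by
  have h1 : ∀ {Z : 𝒱.Obj} {j : ℕ} {c : W.H Z}, (along C (hodgeTatePred C hG)).P Z j c →
      (commonPred C hG).P Z j c := by
    intro Z j c hc
    refine ladic_ind C (hodgeTatePred C hG) (p := fun c => (commonPred C hG).P Z j c) ?_ ?_ hc
    · intro r a ha
      exact (commonPred C hG).smul r ⟨ha.2, mem_hodgePart ha.1⟩
    · intro x y hx hy
      exact (commonPred C hG).add hx hy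
  have h2 : ∀ Z, (along C (hodgeTatePred C hG)).sys.C Z ≤ (commonPred C hG).sys.C Z := fun Z =>
    Submodule.span_mono fun _ ⟨j, hj⟩ => ⟨j, h1 hj⟩
  have h3 := a_mono h2 Z
  have h4 := nondeg_along C (hodgeTatePred C hG) (hodgeTate_nondeg C hG Z)
  have h5 : (along C (hodgeTatePred C hG)).sys.Num Z = ⊥ := by
    rw [eq_bot_iff]
    rintro c ⟨hc1, hc2⟩
    rw [Submodule.mem_bot]
    exact h4 c hc1 hc2
  have h6 := (along C (hodgeTatePred C hG)).sys.a_add_num Z
  rw [h5, finrank_bot, add_zero, finrank_along] at h6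
  rw [commonRank_eq hG, h6] at h3
  exact h3

/-- If the common classes are not negligible among the Hodge classes, then all Hodge classes are
Tate classes. -/
theorem hodgeIsTate [TopologicalSpace Γ] [IsTopologicalGroup Γ] [CompactSpace Γ]
    [TotallyDisconnectedSpace Γ] {ℓ : ℕ} [Fact ℓ.Prime] {e : W.K ≃+* ℚ_[ℓ]}
    (hG : IsGaloisTheory G) (hc : IsContinuousTheory e G)
    (h : ¬ Negligible (fun n => commonRank C G (pw X n)) (fun n => hodgeDim T (pw X n))) (n : ℕ) :
    HodgeIsTate C G (pw X n) := by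
  intro j c hj
  have h1 : ¬ Negl (commonPred C hG).sys (hodgePred C).sys X := fun h' => h
    ((negl_iff (fun n => commonRank_eq hG _) (fun n => finrank_hodge _)).1 h')
  exact isTate_of_not_negl hG hc (common_le_hodge hG) (common_le_tate hG) h1
    (ClassPred.sp_of (Q := hodgePred C) (j := j) (mem_hodgePart hj)) (C.gr' hj.1)

/-- If the common classes are not negligible among the Tate classes, then all Tate classes are
linear combinations of Hodge classes, and the intersection form on them is nondegenerate. -/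
theorem tateIsHodge {ℓ : ℕ} [Fact ℓ.Prime] (e : W.K ≃+* ℚ_[ℓ]) (hG : IsGaloisTheory G)
    (h : ¬ Negligible (fun n => commonRank C G (pw X n)) (fun n => tateDim G (pw X n))) (n : ℕ) :
    TateIsHodge C G (pw X n) ∧ PerfectPairing G (pw X n) := by
  have h1 : ¬ Negl (commonPred C hG).sys (tatePred hG).sys X := fun h' => h
    ((negl_iff (fun n => commonRank_eq hG _) (fun n => rfl)).1 h')
  constructor
  · intro j c hj
    obtain ⟨τ⟩ := exists_emb ℓ
    exact mem_hodgePart_of_not_negl C (τ.comp e.toRingHom) (common_le_tate hG)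
      (common_le_hodge hG) h1 (ClassPred.sp_of (Q := tatePred hG) (j := j) hj) hj.1
  · rcases (tatePred hG).sys.num_or (tatePred hG).sys (fun _ => le_rfl) X with h2 | h2
    · have h3 := h2 n
      rw [tateNull_eq hG] at h3
      exact h3
    · refine absurd (fun N => ?_) h1
      obtain ⟨n₀, h3⟩ := h2 N
      exact ⟨n₀, fun n hn => (Nat.mul_le_mul_left N (a_mono (common_le_tate hG) _)).trans
        (h3 n hn)⟩

/-- Motivated classes are Hodge classes and Tate classes. -/
lemma motDim_le (hG : IsGaloisTheory G) (Z : 𝒱.Obj) : motDim T Z ≤ hodgeTateDim C G Z := by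
  have h : (motPred T.W).sys.C Z ≤ (hodgeTatePred C hG).sys.C Z :=
    Submodule.span_mono fun _ ⟨j, hj⟩ =>
      ⟨j, IsMotivated.hodge (T := toH T) hj, mot_tate C hG hj⟩
  exact Submodule.finrank_mono h

/-- **The zero-one law for the Mumford-Tate conjecture.** -/
theorem zero_one [TopologicalSpace Γ] [IsTopologicalGroup Γ] [CompactSpace Γ]
    [TotallyDisconnectedSpace Γ] {ℓ : ℕ} [Fact ℓ.Prime] {e : W.K ≃+* ℚ_[ℓ]}
    (hG : IsGaloisTheory G) (hc : IsContinuousTheory e G) (C : ArtinComparison T.W W)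
    (X : 𝒱.Obj) :
    (∀ n, motDim T (pw X n) ≤ hodgeTateDim C G (pw X n) ∧
      hodgeTateDim C G (pw X n) ≤ commonRank C G (pw X n)) ∧
    ((∀ n, HodgeIsTate C G (pw X n)) ∨
      Negligible (fun n => commonRank C G (pw X n)) (fun n => hodgeDim T (pw X n))) ∧
    ((∀ n, TateIsHodge C G (pw X n) ∧ PerfectPairing G (pw X n)) ∨
      Negligible (fun n => commonRank C G (pw X n)) (fun n => tateDim G (pw X n))) := by
  refine ⟨fun n => ⟨motDim_le hG _, hodgeTateDim_le hG _⟩, ?_, ?_⟩
  · by_cases h : Negligible (fun n => commonRank C G (pw X n)) (fun n => hodgeDim T (pw X n))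
    · exact Or.inr h
    · exact Or.inl (hodgeIsTate hG hc h)
  · by_cases h : Negligible (fun n => commonRank C G (pw X n)) (fun n => tateDim G (pw X n))
    · exact Or.inr h
    · exact Or.inl (tateIsHodge e hG h)

end Pool.Agent.NH34.Cmp
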