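import Pool.Agent.NH34.Cmp.Defs
import Pool.Agent.R920.MT.Defs
import Pool.Agent.Y133.Half.PairDefs

/-!
# Numbers of Hodge, Tate and motivated classes: definitions
-/

open CategoryTheory AlgebraicGeometry

universe u w

namespace Pool.Agent.NH34.Cmp

open Pool.Agent.H914 Pool.Agent.H914.VarClass Pool.Agent.H914.VarClass.Obj
  Pool.Agent.H914.WeilCohomology Pool.Agent.Y121.AHS
open Pool.Agent.NH34.Lin Pool.Agent.NH34.Gal Pool.Agent.NH34.SS Pool.Agent.R920.MT
open Pool.Agent.Y133.Half (dimBy)

variable {k : Type u} [Field k] {𝒱 : VarClass k} {ops : CycleOps 𝒱}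
  {T : HodgeTheory ops} {W : WeilCohomology.{u, 0} ops} {Γ : Type w} [Group Γ]

/-- The Hodge classes of degree `2 j` on `X` which are Tate classes. -/
def HodgeTate (C : ArtinComparison T.W W) (G : ActionData W Γ) (X : 𝒱.Obj) (j : ℕ)
    (c : T.W.H X) : Prop :=
  IsHodge T X j c ∧ IsTate G X j (C.γ X c)

/-- The number of linearly independent Hodge classes (of all degrees) which are Tate classes. -/
noncomputable def hodgeTateDim (C : ArtinComparison T.W W) (G : ActionData W Γ) (X : 𝒱.Obj) : ℕ :=
  dimBy T.W (HodgeTate C G) X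

/-- The number of linearly independent motivated classes (of all degrees). -/
noncomputable def motDim (T : HodgeTheory ops) (X : 𝒱.Obj) : ℕ := dimBy T.W (IsMotivated T.W) X

/-- All Tate classes on `X` are linear combinations of motivated classes. -/
def TateIsMotivated (C : ArtinComparison T.W W) (G : ActionData W Γ) (X : 𝒱.Obj) : Prop :=
  ∀ j c, IsTate G X j c → c ∈ spanImage W.K (C.γ X) (IsMotivated T.W X j)

/-- All Hodge classes on `X` are motivated. -/
def HodgeIsMotivated (T : HodgeTheory ops) (X : 𝒱.Obj) : Prop :=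
  ∀ j c, IsHodge T X j c → IsMotivated T.W X j c

end Pool.Agent.NH34.Cmp
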