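import Pool.Agent.NH34.Cmp.Along
import Pool.Agent.NH34.Cmp.RDefs
import Pool.Agent.R920.MT.Main

/-!
# Motivated classes are Tate classes
-/

open CategoryTheory AlgebraicGeometry TensorProduct

universe u w

namespace Pool.Agent.NH34.Cmp

open Module
open Pool.Agent.H914 Pool.Agent.H914.VarClass Pool.Agent.H914.VarClass.Obj
  Pool.Agent.H914.WeilCohomology Pool.Agent.Y121.AHS
open Pool.Agent.NH34.Lin Pool.Agent.NH34.Gal Pool.Agent.NH34.SS
open Pool.Agent.Y133.Half Pool.Agent.R920.MT

variable {k : Type u} [Field k] {𝒱 : VarClass k} {ops : CycleOps 𝒱}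
  {V W : WeilCohomology.{u, 0} ops} (C : ArtinComparison V W) {X Y Z : 𝒱.Obj} {j : ℕ}

include C in
lemma lef_inj {D : X.Cycles} (hD : X.IsCyc 1 D) {i : ℕ} (hi : i ≤ X.dim)
    (hHL : HardLefschetz V X D) {y : W.H X} (hy : y ∈ W.gr X i)
    (h : W.cl X D ^ (X.dim - i) * y = 0) : y = 0 := by
  apply W.nondeg
  intro b
  refine C.ind (p := fun b => W.tr X (y * b) = 0) ?_ ?_ b
  · intro r a
    rw [mul_smul_comm, map_smul]
    refine gr_induction (V.isInternal X) (p := fun a => r • W.tr X (y * C.γ X a) = 0) ?_ ?_ a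
    · intro l a ha
      by_cases hl : i + l = 2 * X.dim
      · have ha' : a ∈ V.gr X (2 * X.dim - i) := by
          rwa [show 2 * X.dim - i = l by omega]
        obtain ⟨x, hx, hxa⟩ := Pool.Agent.Y121.AH.hl_surj hHL hi ha'
        have h1 : y * C.γ X a = (W.cl X D ^ (X.dim - i) * y) * C.γ X x := by
          rw [← hxa, map_mul, map_pow, C.cyc, ← mul_assoc]
          congr 1
          have h2 : W.cl X D ∈ PH W X 0 := PH.of' (b := 0) (by omega) (W.cl_mem hD)
          have h3 : ∀ n : ℕ, y * W.cl X D ^ n = W.cl X D ^ n * y := by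
            intro n
            induction n with
            | zero => rw [pow_zero, mul_one, one_mul]
            | succ n ih =>
              rw [pow_succ, ← mul_assoc, ih, mul_assoc, ← PH.even_comm h2 y, mul_assoc]
          exact h3 _
        rw [h1, h, zero_mul, map_zero, smul_zero]
      · rw [W.tr_eq_zero (W.mul_mem hy (C.gr' ha)) hl, smul_zero]
    · intro a b ha hb
      rw [map_add, mul_add, map_add, smul_add, ha, hb, add_zero]
  · intro x y hx hy
    rw [mul_add, map_add, hx, hy, add_zero]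

variable {Γ : Type w} [Group Γ] {G : ActionData W Γ}

/-- The subspace of the rational Tate classes. -/
def tateSub (G : ActionData W Γ) (X : 𝒱.Obj) (j : ℕ) : Submodule V.K (V.H X) where
  carrier := {c | IsTate G X j (C.γ X c)}
  add_mem' {a b} ha hb := by
    change IsTate G X j (C.γ X (a + b))
    rw [map_add]
    exact IsTate.add ha hb
  zero_mem' := by
    change IsTate G X j (C.γ X 0)
    rw [map_zero]
    exact IsTate.zero
  smul_mem' r a ha := by
    change IsTate G X j (C.γ X (r • a))
    rw [C.smul]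
    exact IsTate.smul _ ha

lemma IsTate.pow (hG : IsGaloisTheory G) {i : ℕ} {a : W.H X} (ha : IsTate G X i a) (n : ℕ) :
    IsTate G X (i * n) (a ^ n) := by
  induction n with
  | zero =>
    rw [pow_zero, mul_zero, ← W.cl_fund X]
    exact IsTate.cl hG X.V.fundCycle_mem
  | succ n ih =>
    rw [pow_succ, mul_add, mul_one]
    exact ih.mul ha

/-- The rational Tate classes have the properties which characterise the motivated classes. -/
lemma isSystem_tate (hG : IsGaloisTheory G) :
    IsSystem (W := V) (fun X j c => IsTate G X j (C.γ X c)) where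
  lin X j := ⟨tateSub C G X j, fun _ => Iff.rfl⟩
  cl X j z hz := by
    beta_reduce
    rw [C.cyc]
    exact IsTate.cl hG hz
  mul X i j a b ha hb := by
    beta_reduce
    rw [map_mul]
    exact IsTate.mul ha hb
  map X Y f j a ha := by
    beta_reduce
    rw [C.nat']
    exact IsTate.map hG f ha
  push X Y f j l a hl ha := by
    beta_reduce
    rw [C.push']
    exact IsTate.push hG f hl ha
  lift X D j hD hL hj x hx h := by
    beta_reduce at h ⊢
    refine ⟨C.gr' hx, ?_⟩
    have h1 : IsTate G X (1 * (X.dim - 2 * j)) (W.cl X D ^ (X.dim - 2 * j)) :=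
      IsTate.pow hG (IsTate.cl hG hD) _
    rw [powMul, map_mul, map_pow, C.cyc] at h
    refine (h.2.and h1.2).mono ?_
    rintro g ⟨h2, h3⟩ hgX
    have h4 := h2 hgX
    have h5 := h3 hgX
    rw [map_mul, h5, smul_mul_assoc] at h4
    have h6 : X.dim - j = 1 * (X.dim - 2 * j) + j := by omega
    rw [h6, pow_add, ← smul_smul] at h4
    have h7 := smul_right_injective (W.H X)
      (pow_ne_zero (1 * (X.dim - 2 * j)) (G.χ g).ne_zero) h4
    beta_reduce at h7
    rw [← sub_eq_zero]
    refine lef_inj C hD hj hL (y := G.act X ⟨g, hgX⟩ (C.γ X x) - (G.χ g : W.K) ^ j • C.γ X x)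
      (Submodule.sub_mem _ (hG.gr_mem X _ _ _ (C.gr' hx)) (Submodule.smul_mem _ _ (C.gr' hx))) ?_
    rw [mul_sub, h7, mul_smul_comm, sub_self]

/-- Motivated classes are Tate classes. -/
lemma mot_tate (hG : IsGaloisTheory G) {c : V.H X} (hc : IsMotivated V X j c) :
    IsTate G X j (C.γ X c) := hc _ (isSystem_tate C hG)

section Rat

variable {T : HodgeTheory ops} (C : ArtinComparison T.W W)

lemma isSystem_hodgeTate (hG : IsGaloisTheory G) : IsSystem (W := T.W) (HodgeTate C G) where
  lin X j := ⟨tateSub C G X j ⊓ Pool.Agent.Y121.AH.hodgeSub (toH T) X j, fun _ =>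
    ⟨fun h => ⟨h.2, h.1⟩, fun h => ⟨h.2, h.1⟩⟩⟩
  cl X j z hz := ⟨(isSystem_hodge (toH T)).cl X j z hz, (isSystem_tate C hG).cl X j z hz⟩
  mul X i j a b ha hb := ⟨(isSystem_hodge (toH T)).mul X i j a b ha.1 hb.1,
    (isSystem_tate C hG).mul X i j a b ha.2 hb.2⟩
  map X Y f j a ha := ⟨(isSystem_hodge (toH T)).map X Y f j a ha.1,
    (isSystem_tate C hG).map X Y f j a ha.2⟩
  push X Y f j l a hl ha := ⟨(isSystem_hodge (toH T)).push X Y f j l a hl ha.1,
    (isSystem_tate C hG).push X Y f j l a hl ha.2⟩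
  lift X D j hD hL hj x hx h := ⟨(isSystem_hodge (toH T)).lift X D j hD hL hj x hx h.1,
    (isSystem_tate C hG).lift X D j hD hL hj x hx h.2⟩

/-- The classes which are both Hodge classes and Tate classes. -/
def hodgeTatePred (hG : IsGaloisTheory G) : ClassPred T.W where
  P := HodgeTate C G
  gr h := h.1.1
  zero := ((isSystem_hodgeTate C hG).lin _ _).zero
  add ha hb := ((isSystem_hodgeTate C hG).lin _ _).add ha hb
  smul r _ ha := ((isSystem_hodgeTate C hG).lin _ _).smul r ha
  cl hz := (isSystem_hodgeTate C hG).cl _ _ _ hz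
  mul ha hb := (isSystem_hodgeTate C hG).mul _ _ _ _ _ ha hb
  map f _ _ h := (isSystem_hodgeTate C hG).map _ _ f _ _ h
  push f _ _ hl _ h := (isSystem_hodgeTate C hG).push _ _ f _ _ _ hl h

lemma lifts_hodgeTate (hG : IsGaloisTheory G) :
    Pool.Agent.Y121.AH.Lifts (toH T) (hodgeTatePred C hG) := by
  intro X D hD j hj v hv
  have h0 : v ∈ T.W.gr X (2 * X.dim - 2 * j) := by
    have := (hodgeTatePred C hG).gr hv
    rwa [show 2 * (X.dim - j) = 2 * X.dim - 2 * j by omega] at this
  obtain ⟨x, hx, hxv⟩ := Pool.Agent.Y121.AH.hl_surj hD.2.1 hj h0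
  refine ⟨x, ?_, hxv⟩
  refine (isSystem_hodgeTate C hG).lift X D j hD.1 hD.2.1 hj x hx ?_
  have h1 : powMul (T.W.cl X D) (X.dim - 2 * j) x = v := hxv
  rw [h1]
  exact hv

/-- The intersection form on the classes which are both Hodge classes and Tate classes is
nondegenerate. -/
lemma hodgeTate_nondeg (hG : IsGaloisTheory G) (X : 𝒱.Obj) :
    (hodgeTatePred C hG).sys.Nondeg X :=
  fun _ hx h => Pool.Agent.Y121.AH.q_nondeg_sys (T := toH T) (Q := hodgeTatePred C hG)
    (fun h => h.1) (lifts_hodgeTate C hG) hx h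

end Rat

end Pool.Agent.NH34.Cmp
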