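import Pool.Agent.NH34.Cmp.SDefs
import Pool.Agent.NH34.Mot.Defs

/-!
# Motivated classes, Hodge classes and Tate classes: definitions
-/

open CategoryTheory AlgebraicGeometry

universe u w

namespace Pool.Agent.NH34.Law

open Pool.Agent.H914 Pool.Agent.H914.VarClass Pool.Agent.H914.VarClass.Obj
  Pool.Agent.H914.WeilCohomology
open Pool.Agent.NH34.Lin Pool.Agent.NH34.Gal Pool.Agent.NH34.Hdg Pool.Agent.NH34.Cmp
  Pool.Agent.NH34.Mot

variable {k : Type u} [Field k] {𝒱 : VarClass k} {ops : CycleOps 𝒱}
  {T : HodgeTheory ops} {W : WeilCohomology.{u, 0} ops} {Γ : Type w} [Group Γ]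

/-- The number of linearly independent motivated classes on `X`. -/
noncomputable def motNum (T : HodgeTheory ops) (X : 𝒱.Obj) : ℕ := numOf T.W.K (IsMotivated T.W X)

/-- All Hodge classes on `X` are motivated. -/
def HodgeIsMotivated (T : HodgeTheory ops) (X : 𝒱.Obj) : Prop :=
  ∀ j c, IsHodge T X j c → IsMotivated T.W X j c

/-- All Tate classes on `X` are linear combinations of motivated classes. -/
def TateIsMotivated (C : ArtinComparison T.W W) (G : ActionData W Γ) (X : 𝒱.Obj) : Prop :=
  AllCombs W.K (C.γ X) (IsMotivated T.W X) (IsTate G X)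

end Pool.Agent.NH34.Law
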