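import Pool.Agent.NH34.Cmp.Basic

/-!
# The comparison isomorphism with extended coefficients
-/

open CategoryTheory AlgebraicGeometry TensorProduct

universe u w

namespace Pool.Agent.NH34.Cmp.ArtinComparison

open Module
open Pool.Agent.H914 Pool.Agent.H914.VarClass Pool.Agent.H914.VarClass.Obj
  Pool.Agent.H914.WeilCohomology Pool.Agent.Y121.AHS
open Pool.Agent.NH34.Lin Pool.Agent.NH34.Gal Pool.Agent.NH34.SS

variable {k : Type u} [Field k] {𝒱 : VarClass k} {ops : CycleOps 𝒱}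
  {V W : WeilCohomology.{u, 0} ops} (C : ArtinComparison V W) {X Y : 𝒱.Obj}
  {M : Type} [Field M] [Algebra V.K M] [Algebra W.K M]

/-- The two structures of algebras are compatible. -/
def Compat (M : Type) [Field M] [Algebra V.K M] [Algebra W.K M] : Prop :=
  ∀ r : V.K, algebraMap V.K M r = algebraMap W.K M (C.σ r)

variable (hC : C.Compat M)

/-- The comparison homomorphism with coefficients extended to `M`. -/
noncomputable def Φ (X : 𝒱.Obj) : M ⊗[V.K] V.H X →+ M ⊗[W.K] W.H X :=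
  TensorProduct.liftAddHom
    ((AddMonoidHom.mk' (fun m : M => (AddMonoidHom.mk' (fun a : V.H X => m ⊗ₜ[W.K] C.γ X a)
      (fun a b => by rw [map_add, TensorProduct.tmul_add]) : V.H X →+ M ⊗[W.K] W.H X))
      (fun m n => by
        apply AddMonoidHom.ext
        intro a
        exact TensorProduct.add_tmul _ _ _)) : M →+ (V.H X →+ M ⊗[W.K] W.H X))
    (fun r m a => by
      change (r • m) ⊗ₜ[W.K] C.γ X a = m ⊗ₜ[W.K] C.γ X (r • a)
      rw [C.smul, TensorProduct.tmul_smul, TensorProduct.smul_tmul', Algebra.smul_def,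
        Algebra.smul_def, hC r])

lemma Φ_tmul (m : M) (a : V.H X) : C.Φ hC X (m ⊗ₜ[V.K] a) = m ⊗ₜ[W.K] C.γ X a := rfl

lemma Φ_smul (m : M) (x : M ⊗[V.K] V.H X) : C.Φ hC X (m • x) = m • C.Φ hC X x := by
  refine tmul_induction (P := fun x => C.Φ hC X (m • x) = m • C.Φ hC X x) ?_ ?_ ?_ x
  · rw [smul_zero, map_zero, smul_zero]
  · intro x y hx hy
    rw [smul_add, map_add, hx, hy, map_add, smul_add]
  · intro l a
    rw [TensorProduct.smul_tmul', Φ_tmul, Φ_tmul, TensorProduct.smul_tmul']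

lemma Φ_mul (x y : M ⊗[V.K] V.H X) : C.Φ hC X (x * y) = C.Φ hC X x * C.Φ hC X y := by
  refine tmul_induction (P := fun x => C.Φ hC X (x * y) = C.Φ hC X x * C.Φ hC X y) ?_ ?_ ?_ x
  · rw [zero_mul, map_zero, zero_mul]
  · intro x z hx hz
    rw [add_mul, map_add, hx, hz, map_add, add_mul]
  · intro l a
    refine tmul_induction (P := fun y => C.Φ hC X (l ⊗ₜ[V.K] a * y) =
      C.Φ hC X (l ⊗ₜ[V.K] a) * C.Φ hC X y) ?_ ?_ ?_ y
    · rw [mul_zero, map_zero, mul_zero]
    · intro x z hx hz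
      rw [mul_add, map_add, hx, hz, map_add, mul_add]
    · intro l' b
      rw [Algebra.TensorProduct.tmul_mul_tmul, Φ_tmul, Φ_tmul, Φ_tmul, map_mul,
        Algebra.TensorProduct.tmul_mul_tmul]

lemma Φ_map (f : X ⟶ Y) (y : M ⊗[V.K] V.H Y) :
    C.Φ hC X (mapBase M (V.map f) y) = mapBase M (W.map f) (C.Φ hC Y y) := by
  refine tmul_induction (P := fun y => C.Φ hC X (mapBase M (V.map f) y) =
    mapBase M (W.map f) (C.Φ hC Y y)) ?_ ?_ ?_ y
  · simp only [map_zero]
  · intro x z hx hz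
    simp only [map_add, hx, hz]
  · intro l a
    rw [Algebra.TensorProduct.map_tmul, Φ_tmul, Φ_tmul, Algebra.TensorProduct.map_tmul, C.nat']

lemma Φ_tr (x : M ⊗[V.K] V.H X) :
    formBase M (W.tr X) (C.Φ hC X x) = formBase M (V.tr X) x := by
  refine tmul_induction (P := fun x => formBase M (W.tr X) (C.Φ hC X x) =
    formBase M (V.tr X) x) ?_ ?_ ?_ x
  · simp only [map_zero]
  · intro x z hx hz
    simp only [map_add, hx, hz]
  · intro l a
    rw [Φ_tmul, formBase_tmul, formBase_tmul, C.tr', hC]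

lemma Φ_inj : Function.Injective (C.Φ hC X) := by
  rw [injective_iff_map_eq_zero]
  intro x hx
  let x' : (baseW V M).H X := x
  have h : x' = 0 := by
    apply (baseW V M).nondeg
    intro b
    change formBase M (V.tr X) ((show M ⊗[V.K] V.H X from x) * (show M ⊗[V.K] V.H X from b)) = 0
    rw [← C.Φ_tr hC, C.Φ_mul, hx, zero_mul, map_zero]
  exact h

lemma Φ_surj : Function.Surjective (C.Φ hC X) := by
  intro y
  refine tmul_induction (P := fun y => ∃ x, C.Φ hC X x = y) ⟨0, map_zero _⟩ ?_ ?_ y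
  · rintro _ _ ⟨a, rfl⟩ ⟨b, rfl⟩
    exact ⟨a + b, map_add _ _ _⟩
  · intro l b
    refine C.ind (p := fun b => ∃ x, C.Φ hC X x = l ⊗ₜ[W.K] b) ?_ ?_ b
    · intro r a
      refine ⟨(algebraMap W.K M r * l) ⊗ₜ[V.K] a, ?_⟩
      rw [Φ_tmul, TensorProduct.tmul_smul, TensorProduct.smul_tmul', Algebra.smul_def]
    · rintro x z ⟨a, ha⟩ ⟨b, hb⟩
      exact ⟨a + b, by rw [map_add, ha, hb, TensorProduct.tmul_add]⟩

/-- The comparison isomorphism with coefficients extended to `M`. -/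
noncomputable def Φe (X : 𝒱.Obj) : M ⊗[V.K] V.H X ≃ₗ[M] M ⊗[W.K] W.H X :=
  LinearEquiv.ofBijective
    ({ C.Φ hC X with map_smul' := C.Φ_smul hC } : M ⊗[V.K] V.H X →ₗ[M] M ⊗[W.K] W.H X)
    ⟨C.Φ_inj hC, C.Φ_surj hC⟩

lemma Φe_apply (x : M ⊗[V.K] V.H X) : C.Φe hC X x = C.Φ hC X x := rfl

end Pool.Agent.NH34.Cmp.ArtinComparison
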