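import Pool.Agent.NH34.Cmp.Twist
import Pool.Agent.NH34.Cmp.Ind

/-!
# Rationality of systems of classes
-/

open CategoryTheory AlgebraicGeometry TensorProduct

universe u v w

namespace Pool.Agent.NH34.Cmp

open Module Module.End
open Pool.Agent.H914 Pool.Agent.H914.VarClass Pool.Agent.H914.VarClass.Obj
  Pool.Agent.H914.WeilCohomology Pool.Agent.Y121.AHS
open Pool.Agent.NH34.Lin Pool.Agent.NH34.Gal Pool.Agent.NH34.SS Pool.Agent.NH34.ZO
open Pool.Agent.Y133.Half Pool.Agent.Y133.Half.Sys Pool.Agent.R920.MT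
open Pool.Agent.Y121.AH (ratAlg psi)

section Coord

variable {K L A : Type} [Field K] [Field L] [Algebra K L] [Ring A] [Algebra K A]

lemma coord_mem {ι : Type} (b : Basis ι K L) (U : Submodule K A) (f : ι →₀ A)
    (h : (f.sum fun i m => b i ⊗ₜ[K] m) ∈ U.baseChange L) (i : ι) : f i ∈ U := by
  classical
  have h1 : (U.mkQ).baseChange L (f.sum fun i m => b i ⊗ₜ[K] m) = 0 := by
    refine base_induction (P := fun x => (U.mkQ).baseChange L x = 0) (map_zero _) ?_ ?_ h
    · intro x y hx hy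
      rw [map_add, hx, hy, add_zero]
    · intro l a ha
      rw [LinearMap.baseChange_tmul, Submodule.mkQ_apply, (Submodule.Quotient.mk_eq_zero U).2 ha,
        TensorProduct.tmul_zero]
  let g : ι →₀ (A ⧸ U) := f.mapRange U.mkQ (map_zero _)
  have h2 : (g.sum fun i m => b i ⊗ₜ[K] m) = 0 := by
    rw [← h1, Finsupp.sum_mapRange_index (fun i => TensorProduct.tmul_zero _ _), Finsupp.sum,
      Finsupp.sum, map_sum]
    exact Finset.sum_congr rfl fun i _ => (LinearMap.baseChange_tmul _ _ _).symm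
  have h3 : g = 0 := by
    apply (TensorProduct.equivFinsuppOfBasisLeft b (M := L) (N := A ⧸ U)).symm.injective
    rw [map_zero, TensorProduct.equivFinsuppOfBasisLeft_symm_apply]
    exact h2
  have h4 := congrArg (fun g : ι →₀ (A ⧸ U) => g i) h3
  change U.mkQ (f i) = 0 at h4
  rwa [Submodule.mkQ_apply, Submodule.Quotient.mk_eq_zero] at h4

end Coord

variable {k : Type u} [Field k] {𝒱 : VarClass k} {ops : CycleOps 𝒱}

section Transfer

variable {V W : WeilCohomology.{u, 0} ops} (C : ArtinComparison V W) (Q0 : ClassPred V)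
  {X Y Z : 𝒱.Obj} {M : Type} [Field M] [Algebra V.K M] [Algebra W.K M] (hC : C.Compat M)

/-- An operator on the `ℓ`-adic cohomology, as an operator on the singular cohomology. -/
noncomputable def opV (A : Module.End M (M ⊗[W.K] W.H Z)) : Module.End M (M ⊗[V.K] V.H Z) :=
  (C.Φe hC Z).symm.toLinearMap ∘ₗ A ∘ₗ (C.Φe hC Z).toLinearMap

lemma Φ_opV (A : Module.End M (M ⊗[W.K] W.H Z)) (x : M ⊗[V.K] V.H Z) :
    C.Φ hC Z (opV C hC A x) = A (C.Φ hC Z x) := by
  change C.Φe hC Z ((C.Φe hC Z).symm (A (C.Φe hC Z x))) = _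
  rw [LinearEquiv.apply_symm_apply]
  rfl

lemma Φ_opV_pow (A : Module.End M (M ⊗[W.K] W.H Z)) (n : ℕ) (x : M ⊗[V.K] V.H Z) :
    C.Φ hC Z ((opV C hC A ^ n) x) = (A ^ n) (C.Φ hC Z x) := by
  induction n with
  | zero => rfl
  | succ n ih => rw [pow_succ', pow_succ', Module.End.mul_apply, Module.End.mul_apply, Φ_opV, ih]

variable {Q0}

lemma Φ_mem {s : M ⊗[V.K] V.H Z} (hs : s ∈ (Q0.sys.C Z).baseChange M) :
    C.Φ hC Z s ∈ ((along C Q0).sys.C Z).baseChange M := by
  refine base_induction (P := fun s => C.Φ hC Z s ∈ ((along C Q0).sys.C Z).baseChange M)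
    ?_ ?_ ?_ hs
  · rw [map_zero]; exact Submodule.zero_mem _
  · intro x y hx hy
    rw [map_add]; exact Submodule.add_mem _ hx hy
  · intro l a ha
    rw [C.Φ_tmul]
    refine Submodule.tmul_mem_baseChange_of_mem _ ?_
    refine ClassPred.sp_ind (Q := Q0) (q := fun a => C.γ Z a ∈ (along C Q0).sys.C Z) ?_ ?_ ?_ ha
    · intro j a ha
      exact ClassPred.sp_of (Q := along C Q0) (j := j) (mem_ladic ha)
    · rw [map_zero]; exact Submodule.zero_mem _
    · intro a b ha hb
      rw [map_add]; exact Submodule.add_mem _ ha hb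

/-- A germ on the `ℓ`-adic cohomology, as a germ on the singular cohomology. -/
noncomputable def germV (A : Germ ((along C Q0).sys.base M)) : Germ (Q0.sys.base M) where
  A Z := opV (M := M) C hC (A.A Z)
  w := A.w
  w_pos := A.w_pos
  inj Z := (C.Φe hC Z).symm.injective.comp ((A.inj Z).comp (C.Φe hC Z).injective)
  mul Z a b := by
    have h1 : ∀ a b : M ⊗[V.K] V.H Z, opV (M := M) C hC (A.A Z) (a * b) =
        opV (M := M) C hC (A.A Z) a * opV (M := M) C hC (A.A Z) b := by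
      intro a b
      refine C.Φ_inj (M := M) hC ?_
      rw [Φ_opV, C.Φ_mul, C.Φ_mul, Φ_opV, Φ_opV]
      exact A.mul Z _ _
    exact h1 a b
  map {Y Z} f := by
    obtain ⟨N, hN, h⟩ := A.map f
    have h1 : ∀ b : M ⊗[V.K] V.H Z, (opV (M := M) C hC (A.A Y) ^ (N * A.w Z)) (mapBase M (V.map f) b) =
        mapBase M (V.map f) ((opV (M := M) C hC (A.A Z) ^ (N * A.w Y)) b) := by
      intro b
      refine C.Φ_inj (M := M) hC ?_
      rw [Φ_opV_pow, C.Φ_map, C.Φ_map, Φ_opV_pow]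
      exact h _
    exact ⟨N, hN, h1⟩
  tr Z a := by
    change formBase M (V.tr Z) (opV (M := M) C hC (A.A Z) a) = formBase M (V.tr Z) a
    rw [← C.Φ_tr hC, ← C.Φ_tr hC, Φ_opV]
    exact A.tr Z _
  fix Z s hs := by
    have h1 : ∀ s : M ⊗[V.K] V.H Z, s ∈ (Q0.sys.C Z).baseChange M →
        ∃ N : ℕ, 0 < N ∧ (opV (M := M) C hC (A.A Z) ^ N) s = s := by
      intro s hs
      obtain ⟨N, hN, h⟩ := A.fix Z (C.Φ hC Z s) (Φ_mem C hC hs)
      refine ⟨N, hN, ?_⟩
      refine C.Φ_inj (M := M) hC ?_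
      rw [Φ_opV_pow]
      exact h
    exact h1 s hs

end Transfer

section Rank

variable {V W : WeilCohomology.{u, 0} ops} (C : ArtinComparison V W) (Q : ClassPred V)
  {X Y Z : 𝒱.Obj}

/-- The map on the spaces of classes. -/
def incA (Z : 𝒱.Obj) (c : Q.sys.C Z) : (along C Q).sys.C Z :=
  ⟨C.γ Z c, by
    refine ClassPred.sp_ind (Q := Q) (q := fun a => C.γ Z a ∈ (along C Q).sys.C Z) ?_ ?_ ?_ c.2
    · intro j a ha
      exact ClassPred.sp_of (Q := along C Q) (j := j) (mem_ladic ha)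
    · rw [map_zero]; exact Submodule.zero_mem _
    · intro a b ha hb
      rw [map_add]; exact Submodule.add_mem _ ha hb⟩

lemma incA_span (Z : 𝒱.Obj) :
    Submodule.span W.K (Set.range (incA C Q Z)) = ⊤ := by
  rw [eq_top_iff]
  rintro ⟨x, hx⟩ _
  have key : ∃ y : (along C Q).sys.C Z, (y : W.H Z) = x ∧
        y ∈ Submodule.span W.K (Set.range (incA C Q Z)) := by
    refine ClassPred.sp_ind (Q := along C Q) (q := fun x => ∃ y : (along C Q).sys.C Z,
      (y : W.H Z) = x ∧ y ∈ Submodule.span W.K (Set.range (incA C Q Z))) ?_ ?_ ?_ hx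
    · intro j x hx
      refine ladic_ind C Q (p := fun x => ∃ y : (along C Q).sys.C Z,
        (y : W.H Z) = x ∧ y ∈ Submodule.span W.K (Set.range (incA C Q Z))) ?_ ?_ hx
      · intro r a ha
        exact ⟨r • incA C Q Z ⟨a, ClassPred.sp_of (Q := Q) ha⟩, rfl,
          Submodule.smul_mem _ _ (Submodule.subset_span ⟨_, rfl⟩)⟩
      · rintro _ _ ⟨y, rfl, hy⟩ ⟨z, rfl, hz⟩
        exact ⟨y + z, rfl, Submodule.add_mem _ hy hz⟩
    · exact ⟨0, rfl, Submodule.zero_mem _⟩
    · rintro _ _ ⟨y, rfl, hy⟩ ⟨z, rfl, hz⟩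
      exact ⟨y + z, rfl, Submodule.add_mem _ hy hz⟩
  obtain ⟨y, hy, hy'⟩ := key
  have : y = ⟨x, hx⟩ := Subtype.ext hy
  rwa [this] at hy'

/-- The rank of the intersection form does not change. -/
lemma a_along (Z : 𝒱.Obj) : (along C Q).sys.a Z = Q.sys.a Z := by
  have h : rk ((along C Q).sys.F Z 1) = rk (Q.sys.F Z 1) := by
    let _ : Algebra V.K W.K := C.σ.toAlgebra
    refine rk_bc (K := V.K) (L := W.K) (incA C Q Z) (incA C Q Z) (incA_span C Q Z)
      (incA_span C Q Z) fun x y => ?_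
    rw [F_apply, F_apply]
    change W.tr Z (C.γ Z x * C.γ Z y) = C.σ (V.tr Z ((x : V.H Z) * (y : V.H Z)))
    rw [← map_mul, C.tr']
  exact h

end Rank

end Pool.Agent.NH34.Cmp
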