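import Pool.Agent.NH34.Lin.CountDefs
import Pool.Agent.NH34.Cmp.CmpDefs
import Pool.Agent.NH34.Gal.Defs
import Pool.Agent.NH34.Hdg.Defs

/-!
# Hodge classes and Tate classes: definitions
-/

open CategoryTheory AlgebraicGeometry

universe u w

namespace Pool.Agent.NH34.Law

open Pool.Agent.H914 Pool.Agent.H914.VarClass Pool.Agent.H914.VarClass.Obj
  Pool.Agent.H914.WeilCohomology
open Pool.Agent.NH34.Lin Pool.Agent.NH34.Gal Pool.Agent.NH34.Hdg Pool.Agent.NH34.Cmp

variable {k : Type u} [Field k] {𝒱 : VarClass k} {ops : CycleOps 𝒱}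
  {T : HodgeTheory ops} {W : WeilCohomology.{u, 0} ops} {Γ : Type w} [Group Γ]

/-- The `ℓ`-adic class `c` is a linear combination, with coefficients in `ℚ_ℓ`, of Hodge classes of
degree `2 j` on `X`. -/
def IsHodgeComb (C : ArtinComparison T.W W) (X : 𝒱.Obj) (j : ℕ) (c : W.H X) : Prop :=
  IsComb W.K (C.γ X) (IsHodge T X j) c

/-- The `ℓ`-adic class `c` is a Tate class and a linear combination of Hodge classes. -/
def IsCommon (C : ArtinComparison T.W W) (G : ActionData W Γ) (X : 𝒱.Obj) (j : ℕ) (c : W.H X) :
    Prop :=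
  IsTate G X j c ∧ IsHodgeComb C X j c

/-- The Hodge class `c` is a Tate class. -/
def IsHodgeTate (C : ArtinComparison T.W W) (G : ActionData W Γ) (X : 𝒱.Obj) (j : ℕ)
    (c : T.W.H X) : Prop :=
  IsHodge T X j c ∧ IsTate G X j (C.γ X c)

/-- The number of linearly independent Hodge classes on `X`. -/
noncomputable def hodgeNum (T : HodgeTheory ops) (X : 𝒱.Obj) : ℕ := numOf T.W.K (IsHodge T X)

/-- The number of linearly independent Tate classes on `X`. -/
noncomputable def tateNum (G : ActionData W Γ) (X : 𝒱.Obj) : ℕ := numOf W.K (IsTate G X)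

/-- The number of linearly independent Hodge classes on `X` which are Tate classes. -/
noncomputable def hodgeTateNum (C : ArtinComparison T.W W) (G : ActionData W Γ) (X : 𝒱.Obj) : ℕ :=
  numOf T.W.K (IsHodgeTate C G X)

/-- The rank of the intersection form on the space spanned by the `ℓ`-adic classes on `X` which are
Tate classes and linear combinations of Hodge classes. -/
noncomputable def commonRank (C : ArtinComparison T.W W) (G : ActionData W Γ) (X : 𝒱.Obj) : ℕ :=
  rankBy (W.tr X) (IsCommon C G X)

/-- All Hodge classes on `X` are Tate classes. -/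
def HodgeIsTate (C : ArtinComparison T.W W) (G : ActionData W Γ) (X : 𝒱.Obj) : Prop :=
  SendsAll (C.γ X) (IsHodge T X) (IsTate G X)

/-- All Tate classes on `X` are linear combinations of Hodge classes. -/
def TateIsHodge (C : ArtinComparison T.W W) (G : ActionData W Γ) (X : 𝒱.Obj) : Prop :=
  AllCombs W.K (C.γ X) (IsHodge T X) (IsTate G X)

/-- The intersection form is nondegenerate on the space spanned by the Tate classes on `X`. -/
def TateIsPerfect (G : ActionData W Γ) (X : 𝒱.Obj) : Prop := NondegBy (W.tr X) (IsTate G X)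

end Pool.Agent.NH34.Law
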