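import Pool.Agent.NH34.Cmp.Along
import Pool.Agent.NH34.ZO.Base

/-!
# Conjugation of systems of classes by automorphisms of the coefficients
-/

open CategoryTheory AlgebraicGeometry TensorProduct

universe u v w

namespace Pool.Agent.NH34.Cmp

open Module
open Pool.Agent.H914 Pool.Agent.H914.VarClass Pool.Agent.H914.VarClass.Obj
  Pool.Agent.H914.WeilCohomology
open Pool.Agent.NH34.Lin Pool.Agent.NH34.ZO
open Pool.Agent.Y133.Half Pool.Agent.Y133.Half.Sys

variable {k : Type u} [Field k] {𝒱 : VarClass k} {ops : CycleOps 𝒱}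

/-- A semilinear homomorphism of cohomology theories. -/
structure Twist (U U' : WeilCohomology.{u, v} ops) where
  /-- the homomorphism of the coefficients -/
  s : U.K →+* U'.K
  surj : Function.Surjective s
  /-- the homomorphisms -/
  F : ∀ Z : 𝒱.Obj, U.H Z →+* U'.H Z
  semi : ∀ (Z : 𝒱.Obj) (r : U.K) (x : U.H Z), F Z (r • x) = s r • F Z x
  even : ∀ {Z : 𝒱.Obj} {x : U.H Z}, x ∈ PH U Z 0 → F Z x ∈ PH U' Z 0
  map : ∀ {Y Z : 𝒱.Obj} (f : Y ⟶ Z) (y : U.H Z), F Y (U.map f y) = U'.map f (F Z y)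
  push : ∀ {Y Z : 𝒱.Obj} (f : Y ⟶ Z) (x : U.H Y), F Z (U.push f x) = U'.push f (F Y x)

namespace Twist

variable {U U' : WeilCohomology.{u, v} ops} (τ : Twist U U') (T : Sys U) {Z : 𝒱.Obj}

/-- The conjugate system. -/
def sys : Sys U' where
  C Z :=
    { carrier := {y | ∃ x ∈ T.C Z, τ.F Z x = y}
      add_mem' := by
        rintro _ _ ⟨x, hx, rfl⟩ ⟨y, hy, rfl⟩
        exact ⟨x + y, Submodule.add_mem _ hx hy, map_add _ _ _⟩
      zero_mem' := ⟨0, Submodule.zero_mem _, map_zero _⟩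
      smul_mem' := by
        rintro r _ ⟨x, hx, rfl⟩
        obtain ⟨r, rfl⟩ := τ.surj r
        exact ⟨r • x, Submodule.smul_mem _ _ hx, τ.semi _ _ _⟩ }
  even := by
    rintro Z _ ⟨x, hx, rfl⟩
    exact τ.even (T.even hx)
  one Z := ⟨1, T.one Z, map_one _⟩
  mul := by
    rintro Z _ _ ⟨x, hx, rfl⟩ ⟨y, hy, rfl⟩
    exact ⟨x * y, T.mul hx hy, map_mul _ _ _⟩
  map := by
    rintro Y Z f _ ⟨x, hx, rfl⟩
    exact ⟨U.map f x, T.map f hx, τ.map f x⟩
  push := by
    rintro Y Z f _ ⟨x, hx, rfl⟩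
    exact ⟨U.push f x, T.push f hx, τ.push f x⟩

lemma mem_sys {x : U.H Z} (hx : x ∈ T.C Z) : τ.F Z x ∈ (τ.sys T).C Z := ⟨x, hx, rfl⟩

lemma finrank_sys_le (Z : 𝒱.Obj) :
    finrank U'.K ((τ.sys T).C Z) ≤ finrank U.K (T.C Z) := by
  classical
  let b := Module.finBasis U.K (T.C Z)
  have h1 : (τ.sys T).C Z = Submodule.span U'.K (Set.range fun i => τ.F Z (b i)) := by
    apply le_antisymm
    · rintro _ ⟨x, hx, rfl⟩
      have h2 : x = ∑ i, b.repr ⟨x, hx⟩ i • (b i : U.H Z) := by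
        have h3 := congrArg Subtype.val (b.sum_repr ⟨x, hx⟩)
        simp only [AddSubmonoidClass.coe_finsetSum, Submodule.coe_smul] at h3
        exact h3.symm
      rw [h2, map_sum]
      refine Submodule.sum_mem _ fun i _ => ?_
      rw [τ.semi]
      exact Submodule.smul_mem _ _ (Submodule.subset_span ⟨i, rfl⟩)
    · rw [Submodule.span_le]
      rintro _ ⟨i, rfl⟩
      exact τ.mem_sys T (b i).2
  rw [h1]
  refine (finrank_span_le_card _).trans ?_
  rw [Set.toFinset_range]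
  exact Finset.card_image_le.trans (by rw [Finset.card_univ, Fintype.card_fin])

end Twist

section Make

variable {V W : WeilCohomology.{u, 0} ops} (C : ArtinComparison V W) {X Y Z : 𝒱.Obj}
  {M : Type} [Field M] [Algebra V.K M] [Algebra W.K M] (hC : C.Compat M)

lemma Φ_push (f : X ⟶ Y) (x : M ⊗[V.K] V.H X) :
    C.Φ hC Y ((V.push f).baseChange M x) = (W.push f).baseChange M (C.Φ hC X x) := by
  refine tmul_induction (P := fun x => C.Φ hC Y ((V.push f).baseChange M x) =
    (W.push f).baseChange M (C.Φ hC X x)) ?_ ?_ ?_ x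
  · simp only [map_zero]
  · intro x z hx hz
    simp only [map_add, hx, hz]
  · intro l a
    rw [LinearMap.baseChange_tmul, C.Φ_tmul, C.Φ_tmul, LinearMap.baseChange_tmul, C.push']

/-- The conjugation of the extended singular cohomology. -/
noncomputable def sg (σ : M ≃ₐ[V.K] M) (X : 𝒱.Obj) : M ⊗[V.K] V.H X →ₐ[V.K] M ⊗[V.K] V.H X :=
  Algebra.TensorProduct.map σ.toAlgHom (AlgHom.id V.K (V.H X))

lemma sg_tmul (σ : M ≃ₐ[V.K] M) (m : M) (a : V.H X) :
    sg σ X (m ⊗ₜ[V.K] a) = σ m ⊗ₜ[V.K] a := by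
  rw [sg, Algebra.TensorProduct.map_tmul]
  rfl

lemma sg_smul (σ : M ≃ₐ[V.K] M) (m : M) (x : M ⊗[V.K] V.H X) :
    sg σ X (m • x) = σ m • sg σ X x := by
  refine tmul_induction (P := fun x => sg σ X (m • x) = σ m • sg σ X x) ?_ ?_ ?_ x
  · rw [smul_zero, map_zero, smul_zero]
  · intro x y hx hy
    rw [smul_add, map_add, hx, hy, map_add, smul_add]
  · intro l a
    rw [TensorProduct.smul_tmul', sg_tmul, sg_tmul, TensorProduct.smul_tmul', smul_eq_mul,
      smul_eq_mul, map_mul]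

lemma sg_map (σ : M ≃ₐ[V.K] M) (f : X ⟶ Y) (y : M ⊗[V.K] V.H Y) :
    sg σ X (mapBase M (V.map f) y) = mapBase M (V.map f) (sg σ Y y) := by
  refine tmul_induction (P := fun y => sg σ X (mapBase M (V.map f) y) =
    mapBase M (V.map f) (sg σ Y y)) ?_ ?_ ?_ y
  · simp only [map_zero]
  · intro x z hx hz
    simp only [map_add, hx, hz]
  · intro l a
    rw [Algebra.TensorProduct.map_tmul, sg_tmul, sg_tmul, Algebra.TensorProduct.map_tmul]
    rfl

lemma sg_push (σ : M ≃ₐ[V.K] M) (f : X ⟶ Y) (x : M ⊗[V.K] V.H X) :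
    sg σ Y ((V.push f).baseChange M x) = (V.push f).baseChange M (sg σ X x) := by
  refine tmul_induction (P := fun x => sg σ Y ((V.push f).baseChange M x) =
    (V.push f).baseChange M (sg σ X x)) ?_ ?_ ?_ x
  · simp only [map_zero]
  · intro x z hx hz
    simp only [map_add, hx, hz]
  · intro l a
    rw [LinearMap.baseChange_tmul, sg_tmul, sg_tmul, LinearMap.baseChange_tmul]

/-- The semilinear isomorphism of the extended `ℓ`-adic cohomology with the extended singular
cohomology. -/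
noncomputable def ds (σ : M ≃ₐ[V.K] M) (X : 𝒱.Obj) : M ⊗[W.K] W.H X →+ M ⊗[V.K] V.H X :=
  ((sg σ X).toRingHom : M ⊗[V.K] V.H X →+ M ⊗[V.K] V.H X).comp
    ((C.Φe hC X).symm.toLinearMap.toAddMonoidHom)

lemma ds_Φ (σ : M ≃ₐ[V.K] M) (x : M ⊗[V.K] V.H X) : ds C hC σ X (C.Φ hC X x) = sg σ X x := by
  change sg σ X ((C.Φe hC X).symm (C.Φe hC X x)) = _
  rw [LinearEquiv.symm_apply_apply]

lemma Φ_one : C.Φ hC X 1 = 1 := by
  rw [Algebra.TensorProduct.one_def, C.Φ_tmul, map_one]
  rfl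

/-- Homogeneous classes are linear combinations of the images of homogeneous classes. -/
lemma gr_ind {i : ℕ} {p : W.H X → Prop} (h : ∀ (r : W.K), ∀ a ∈ V.gr X i, p (r • C.γ X a))
    (hadd : ∀ x y, p x → p y → p (x + y)) {x : W.H X} (hx : x ∈ W.gr X i) : p x := by
  have hproj : ∀ a : V.H X, C.γ X (H914.proj (V.isInternal X) i a) =
      H914.proj (W.isInternal X) i (C.γ X a) := by
    intro a
    refine gr_induction (V.isInternal X) (p := fun a => C.γ X
      (H914.proj (V.isInternal X) i a) = H914.proj (W.isInternal X) i (C.γ X a)) ?_ ?_ a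
    · intro l a ha
      by_cases h : l = i
      · subst h
        rw [proj_same _ ha, proj_same _ (C.gr' ha)]
      · rw [proj_ne _ ha h, proj_ne _ (C.gr' ha) h, map_zero]
    · intro a b ha hb
      rw [map_add, map_add, map_add, map_add, ha, hb]
  have key : ∀ x : W.H X, p (H914.proj (W.isInternal X) i x) := by
    intro x
    refine C.ind (p := fun x => p (H914.proj (W.isInternal X) i x)) ?_ ?_ x
    · intro r a
      rw [map_smul, ← hproj]
      exact h r _ (proj_mem _ _ _)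
    · intro x y hx hy
      rw [map_add]
      exact hadd _ _ hx hy
  have := key x
  rwa [proj_same _ hx] at this

lemma ds_gr (σ : M ≃ₐ[V.K] M) {i : ℕ} {x : M ⊗[W.K] W.H X}
    (hx : x ∈ (W.gr X i).baseChange M) : ds C hC σ X x ∈ (V.gr X i).baseChange M := by
  refine base_induction (P := fun x : M ⊗[W.K] W.H X => ds C hC σ X x ∈
    (V.gr X i).baseChange M) ?_ ?_ ?_ hx
  · rw [map_zero]; exact Submodule.zero_mem _
  · intro x y hx hy
    rw [map_add]; exact Submodule.add_mem _ hx hy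
  · intro l a ha
    refine gr_ind C (p := fun a => ds C hC σ X (l ⊗ₜ[W.K] a) ∈ (V.gr X i).baseChange M) ?_ ?_ ha
    · intro r a ha
      have h1 : (l ⊗ₜ[W.K] (r • C.γ X a) : M ⊗[W.K] W.H X) =
          C.Φ hC X ((algebraMap W.K M r * l) ⊗ₜ[V.K] a) := by
        rw [C.Φ_tmul, TensorProduct.tmul_smul, TensorProduct.smul_tmul', Algebra.smul_def]
      rw [h1, ds_Φ, sg_tmul]
      exact Submodule.tmul_mem_baseChange_of_mem _ ha
    · intro x y hx hy
      rw [TensorProduct.tmul_add, map_add]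
      exact Submodule.add_mem _ hx hy

/-- The semilinear isomorphism of the extended `ℓ`-adic cohomology with the extended singular
cohomology given by an automorphism of the coefficients. -/
noncomputable def twist (σ : M ≃ₐ[V.K] M) : Twist (baseW W M) (baseW V M) where
  s := (σ : M →+* M)
  surj := σ.surjective
  F Z :=
    { toFun := ds C hC σ Z
      map_zero' := map_zero _
      map_add' := map_add _
      map_one' := by
        change ds C hC σ Z (1 : M ⊗[W.K] W.H Z) = (1 : M ⊗[V.K] V.H Z)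
        rw [← Φ_one C hC, ds_Φ, map_one]
      map_mul' := fun a b => by
        obtain ⟨x, rfl⟩ := C.Φ_surj hC a
        obtain ⟨y, rfl⟩ := C.Φ_surj hC b
        change ds C hC σ Z (C.Φ hC Z x * C.Φ hC Z y) =
          ds C hC σ Z (C.Φ hC Z x) * ds C hC σ Z (C.Φ hC Z y)
        rw [← C.Φ_mul, ds_Φ, ds_Φ, ds_Φ, map_mul] }
  semi Z r x := by
    obtain ⟨x, rfl⟩ := C.Φ_surj hC x
    change ds C hC σ Z ((show M from r) • C.Φ hC Z x) = σ r • ds C hC σ Z (C.Φ hC Z x)
    rw [← C.Φ_smul, ds_Φ, ds_Φ, sg_smul]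
  even {Z x} hx := by
    refine PH.ind (W := baseW W M) (p := fun x => (ds C hC σ Z x : (baseW V M).H Z) ∈
      PH (baseW V M) Z 0) ?_ ?_ ?_ hx
    · intro i hi x hx
      exact PH.of' (W := baseW V M) hi (ds_gr C hC σ hx)
    · change ds C hC σ Z (0 : M ⊗[W.K] W.H Z) ∈ PH (baseW V M) Z 0
      rw [map_zero]
      exact Submodule.zero_mem (PH (baseW V M) Z 0)
    · intro x y hx hy
      change ds C hC σ Z ((show M ⊗[W.K] W.H Z from x) + (show M ⊗[W.K] W.H Z from y)) ∈
        PH (baseW V M) Z 0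
      rw [map_add]
      exact Submodule.add_mem (PH (baseW V M) Z 0) hx hy
  map {Y Z} f y := by
    obtain ⟨y, rfl⟩ := C.Φ_surj hC y
    change ds C hC σ Y (mapBase M (W.map f) (C.Φ hC Z y)) =
      mapBase M (V.map f) (ds C hC σ Z (C.Φ hC Z y))
    rw [← C.Φ_map, ds_Φ, ds_Φ, sg_map]
  push {Y Z} f x := by
    obtain ⟨x, rfl⟩ := C.Φ_surj hC x
    change ds C hC σ Z ((W.push f).baseChange M (C.Φ hC Y x)) =
      (V.push f).baseChange M (ds C hC σ Y (C.Φ hC Y x))
    rw [← Φ_push, ds_Φ, ds_Φ, sg_push]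

end Make

end Pool.Agent.NH34.Cmp
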